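import Pool.Agent.Lib.MP_28a49a_al.TowerCost

namespace Pool.Agent.Lib.SE86

open Pool.Agent.Lib.MP_28a49a_al Pool.Agent.Lib.MP_28a49a_al.W

/-- relations of exponential cost in every cost calculus -/
def Cheap {Λ Q : Type} [DecidableEq Λ] [Group Q] (e : Λ → Q) (f : ℕ → FreeGroup Λ) : Prop :=
  ∀ (R : FreeGroup Λ → ℕ → Prop) (C : ℕ), CC (FreeGroup.lift e) R C → EB R f

section
variable {Λ Λ' Q Q' : Type} [DecidableEq Λ] [DecidableEq Λ'] [Group Q] [Group Q']

lemma norm_lift_le [Finite Λ] (θ : Λ → FreeGroup Λ') :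
    ∃ A, ∀ w, FreeGroup.norm (FreeGroup.lift θ w) ≤ A * FreeGroup.norm w := by
  obtain ⟨A, hA⟩ := (Set.finite_range fun x => FreeGroup.norm (θ x)).bddAbove
  refine ⟨A, fun w => ?_⟩
  have key : ∀ L : List (Λ × Bool),
      FreeGroup.norm (FreeGroup.lift θ (FreeGroup.mk L)) ≤ A * L.length := by
    intro L
    induction L with
    | nil => simp [← FreeGroup.one_eq_mk]
    | cons x L ih =>
      have e1 : FreeGroup.mk (x :: L) = FreeGroup.mk [x] * FreeGroup.mk L := by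
        rw [FreeGroup.mul_mk]; rfl
      have e2 : FreeGroup.norm (FreeGroup.lift θ (FreeGroup.mk [x])) ≤ A := by
        obtain ⟨x, _ | _⟩ := x
        · simpa using hA ⟨x, rfl⟩
        · simpa using hA ⟨x, rfl⟩
      rw [e1, map_mul, List.length_cons, Nat.mul_succ, add_comm]
      exact (FreeGroup.norm_mul_le _ _).trans (Nat.add_le_add e2 ih)
  simpa only [FreeGroup.mk_toWord, FreeGroup.norm] using key w.toWord

lemma LL_lift [Finite Λ] (θ : Λ → FreeGroup Λ') {w : ℕ → FreeGroup Λ} (hw : LL w) :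
    LL fun k => FreeGroup.lift θ (w k) := by
  obtain ⟨A, hA⟩ := norm_lift_le θ
  obtain ⟨B, hB⟩ := hw
  exact ⟨A * B, fun k => (hA _).trans (by rw [mul_assoc]; exact Nat.mul_le_mul_left _ (hB k))⟩

lemma LL_mul {u v : ℕ → FreeGroup Λ} (hu : LL u) (hv : LL v) : LL fun k => u k * v k := by
  obtain ⟨A, hA⟩ := hu
  obtain ⟨B, hB⟩ := hv
  refine ⟨A + B, fun k => (FreeGroup.norm_mul_le _ _).trans ?_⟩
  rw [add_mul]
  exact Nat.add_le_add (hA k) (hB k)

lemma LL_pow {u : ℕ → FreeGroup Λ} (hu : LL u) (N : ℕ) : LL fun k => u k ^ N := by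
  induction N with
  | zero => simpa using LL.const (1 : FreeGroup Λ)
  | succ N ih => simpa only [pow_succ] using LL_mul ih hu

lemma cc_comap [Finite Λ] {g' : FreeGroup Λ' →* Q'} {R : FreeGroup Λ' → ℕ → Prop} {C : ℕ}
    (h : CC g' R C) (θ : Λ → FreeGroup Λ') (g : FreeGroup Λ →* Q)
    (hg : ∀ w, g w = 1 → g' (FreeGroup.lift θ w) = 1) :
    ∃ C', CC g (fun w n => R (FreeGroup.lift θ w) n) C' := by
  obtain ⟨A, hA⟩ := norm_lift_le θ
  refine ⟨(C + 1) ^ A, ?_, ?_, ?_, h.mono, ?_, fun w hw => h.fin _ (hg w hw)⟩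
  · simpa using h.one
  · intro a b m n ha hb
    simpa using h.mul ha hb
  · intro a m ha
    simpa using h.inv ha
  · intro u a m ha
    have := h.conj (FreeGroup.lift θ u) ha
    simp only [map_mul, map_inv]
    refine h.mono this (Nat.mul_le_mul_right _ ?_)
    calc (C + 1) ^ FreeGroup.norm (FreeGroup.lift θ u) ≤ (C + 1) ^ (A * FreeGroup.norm u) :=
          Nat.pow_le_pow_right (Nat.succ_pos _) (hA u)
      _ = ((C + 1) ^ A) ^ FreeGroup.norm u := by rw [pow_mul]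
      _ ≤ _ := Nat.pow_le_pow_left (Nat.le_succ _) _

omit [DecidableEq Λ] [DecidableEq Λ'] in
lemma lift_lift {e : Λ → Q} {e' : Λ' → Q'} {θ : Λ → FreeGroup Λ'} (h : Q →* Q')
    (hθ : ∀ x, FreeGroup.lift e' (θ x) = h (e x)) (w : FreeGroup Λ) :
    FreeGroup.lift e' (FreeGroup.lift θ w) = h (FreeGroup.lift e w) :=
  DFunLike.congr_fun (FreeGroup.ext_hom ((FreeGroup.lift e').comp (FreeGroup.lift θ))
    (h.comp (FreeGroup.lift e)) (by simpa using hθ)) w

lemma Cheap.map [Finite Λ] {e : Λ → Q} {f : ℕ → FreeGroup Λ} (hf : Cheap e f) (e' : Λ' → Q')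
    (θ : Λ → FreeGroup Λ') (h : Q →* Q') (hθ : ∀ x, FreeGroup.lift e' (θ x) = h (e x)) :
    Cheap e' fun k => FreeGroup.lift θ (f k) := by
  intro R C hc
  obtain ⟨C', hc'⟩ := cc_comap hc θ (FreeGroup.lift e) fun w hw => by
    rw [lift_lift h hθ, hw, map_one]
  exact hf _ _ hc'

variable {g : FreeGroup Λ →* Q} {R : FreeGroup Λ → ℕ → Prop} {C : ℕ}

lemma eb_comm_pow (h : CC g R C) {l : ℕ → FreeGroup Λ} {x : FreeGroup Λ}
    (hx : EB R fun k => l k * x * (l k)⁻¹ * x⁻¹) (N : ℕ) :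
    EB R fun k => l k * x ^ N * (l k)⁻¹ * (x ^ N)⁻¹ := by
  induction N with
  | zero => simpa using h.eb_refl l
  | succ N ih => simpa only [pow_succ] using h.eb_comm_mul ih hx

lemma eb_pow_comm (h : CC g R C) {l : ℕ → FreeGroup Λ} (hl : LL l) {x : FreeGroup Λ}
    (hx : EB R fun k => l k * x * (l k)⁻¹ * x⁻¹) (N : ℕ) :
    EB R fun k => l k ^ N * x * (l k ^ N)⁻¹ * x⁻¹ := by
  induction N with
  | zero => simpa using h.eb_refl fun _ => x
  | succ N ih => simpa [pow_succ', mul_assoc] using h.eb_mul (h.eb_conj hl ih) hx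

end

end Pool.Agent.Lib.SE86
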