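import Pool.Agent.Lib.MP_28a49a_al.LPath

namespace Pool.Agent.Lib.SE86

open Function Multiplicative Pool.Agent.Lib.MP_28a49a_al

/-- an abelian extension of `Q` with a functional that is bounded on orbits of cycles -/
structure QD (Q : Type) [Group Q] (Qs M Mb : Type) [Group Qs] [AddCommGroup M]
    [AddCommGroup Mb] [DistribMulAction Q M] [DistribMulAction Q Mb] where
  π : Qs →* Q
  π_surj : Function.Surjective π
  jb : Multiplicative Mb →* Qs
  jb_inj : Function.Injective jb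
  jb_range : jb.range = π.ker
  jb_conj : ∀ g m, g * jb (Multiplicative.ofAdd m) * g⁻¹ = jb (Multiplicative.ofAdd (π g • m))
  ϖ : M →+ Mb
  ϖ_surj : Function.Surjective ϖ
  ϖ_smul : ∀ (q : Q) m, ϖ (q • m) = q • ϖ m
  lam : M →+ ℤ
  bdd : ∀ m, ϖ m = 0 → ∃ B : ℕ, ∀ q : Q, |lam (q • m)| ≤ B

theorem QD.conj' {Q Qs M Mb : Type} [Group Q] [Group Qs] [AddCommGroup M] [AddCommGroup Mb]
    [DistribMulAction Q M] [DistribMulAction Q Mb] (D : QD Q Qs M Mb) (g : Qs) (m : M) :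
    D.jb (ofAdd (D.ϖ (D.π g • m))) = g * D.jb (ofAdd (D.ϖ m)) * g⁻¹ := by
  rw [D.jb_conj, D.ϖ_smul]

theorem QD.exists_lift {Q Qs M Mb : Type} [Group Q] [Group Qs] [AddCommGroup M]
    [AddCommGroup Mb] [DistribMulAction Q M] [DistribMulAction Q Mb] (D : QD Q Qs M Mb)
    {g : Qs} (h : D.π g = 1) : ∃ m, D.jb (ofAdd (D.ϖ m)) = g := by
  obtain ⟨b, hb⟩ : g ∈ D.jb.range := by rw [D.jb_range]; exact h
  obtain ⟨m, hm⟩ := D.ϖ_surj b.toAdd
  exact ⟨m, by rw [hm]; exact hb⟩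

theorem QD.pi_jb {Q Qs M Mb : Type} [Group Q] [Group Qs] [AddCommGroup M]
    [AddCommGroup Mb] [DistribMulAction Q M] [DistribMulAction Q Mb] (D : QD Q Qs M Mb)
    (b : Multiplicative Mb) : D.π (D.jb b) = 1 := by
  have : D.jb b ∈ D.π.ker := by rw [← D.jb_range]; exact ⟨b, rfl⟩
  exact this

theorem exists_mu2 {E V S Q E1 Qs M Mb : Type} [Group Q] [Group Qs] [AddCommGroup M]
    [AddCommGroup Mb] [DistribMulAction Q M] [DistribMulAction Q Mb] {R : Set (Tup S)}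
    {X : SqSys E} {L : Lab X V S R} (vh : VHData L E1)
    (hnd : ∀ a b, ¬ vh.T a b (vh.inv b) (vh.inv a)) (D : QD Q Qs M Mb) (A : E1 → Qs)
    (hA : ∀ e, A (vh.inv e) = (A e)⁻¹)
    (hA2 : ∀ a b c d, vh.T a b c d → D.π (A a) * D.π (A b) = D.π (A c) * D.π (A d)) :
    ∃ μ : E1 → E1 → M, ∀ v h h' v', vh.T v h h' v' → vh.vert v →
      D.jb (ofAdd (D.ϖ (μ v h))) = A v * A h * (A h' * A v')⁻¹ ∧
      μ (vh.inv v) h' = -((D.π (A v))⁻¹ • μ v h) ∧ μ v' (vh.inv h) = -((D.π (A h'))⁻¹ • μ v h) := by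
  classical
  let B := {σ : E1 × E1 × E1 × E1 // vh.T σ.1 σ.2.1 σ.2.2.1 σ.2.2.2 ∧ vh.vert σ.1}
  let r1 : B → B := fun σ => ⟨(vh.inv σ.1.1, σ.1.2.2.1, σ.1.2.1, vh.inv σ.1.2.2.2),
    vh.rot σ.2.1, (vh.vert_inv _).2 σ.2.2⟩
  let r2 : B → B := fun σ => ⟨(σ.1.2.2.2, vh.inv σ.1.2.1, vh.inv σ.1.2.2.1, σ.1.1),
    VHData.view3 σ.2.1, VHData.ver_d σ.2.1 σ.2.2⟩
  have neg : ∀ (g : Qs) (m : M), D.jb (ofAdd (D.ϖ (-((D.π g)⁻¹ • m)))) =
      g⁻¹ * (D.jb (ofAdd (D.ϖ m)))⁻¹ * g := by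
    intro g m
    rw [map_neg, ofAdd_neg, map_inv, ← map_inv D.π, D.conj']
    group
  obtain ⟨μ, h0, h1, h2⟩ := exists_sec r1 r2 (fun σ m => -((D.π (A σ.1.1))⁻¹ • m))
    (fun σ m => -((D.π (A σ.1.2.2.1))⁻¹ • m))
    (fun σ m => D.jb (ofAdd (D.ϖ m)) = A σ.1.1 * A σ.1.2.1 * (A σ.1.2.2.1 * A σ.1.2.2.2)⁻¹)
    (fun σ => Subtype.ext (by simp [r1, vh.inv_inv])) (fun σ => Subtype.ext (by simp [r2, vh.inv_inv]))
    (fun σ => rfl)
    (fun σ h => vh.inv_ne _ (congrArg (fun x => x.1.1) h))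
    (fun σ h => vh.inv_ne _ (congrArg (fun x => x.1.2.1) h))
    (by
      rintro ⟨⟨v, h, h', v'⟩, hT, hv⟩ e
      have e1 : vh.inv v' = v := congrArg (fun x => x.1.1) e
      have e2 : vh.inv h' = h := congrArg (fun x => x.1.2.1) e
      subst e1 e2
      refine hnd (vh.inv v') (vh.inv h') ?_
      rw [vh.inv_inv, vh.inv_inv]
      exact hT)
    (fun σ m => by simp [r1, hA])
    (fun σ m => by simp [r2, hA])
    (by
      intro σ m
      simp only [r1, r2, smul_neg, neg_neg, smul_smul]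
      rw [← mul_inv_rev, ← mul_inv_rev, hA2 _ _ _ _ σ.2.1])
    (by
      intro σ m h
      simp only [r1]
      rw [neg, h, hA, hA]
      group)
    (by
      intro σ m h
      simp only [r2]
      rw [neg, h, hA, hA]
      group)
    (by
      intro σ
      apply D.exists_lift
      rw [map_mul, map_inv, map_mul, map_mul, hA2 _ _ _ _ σ.2.1, mul_inv_cancel])
  let μ' : E1 → E1 → M := fun v h =>
    if hx : ∃ σ : B, σ.1.1 = v ∧ σ.1.2.1 = h then μ hx.choose else 0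
  have hμ' : ∀ σ : B, μ' σ.1.1 σ.1.2.1 = μ σ := by
    intro σ
    have hx : ∃ τ : B, τ.1.1 = σ.1.1 ∧ τ.1.2.1 = σ.1.2.1 := ⟨σ, rfl, rfl⟩
    simp only [μ']
    rw [dif_pos hx]
    congr 1
    obtain ⟨e1, e2⟩ := hx.choose_spec
    have hT := hx.choose.2.1
    rw [e1, e2] at hT
    obtain ⟨e3, e4⟩ := VHData.uniq' hT σ.2.1
    exact Subtype.ext (Prod.ext e1 (Prod.ext e2 (Prod.ext e3 e4)))
  refine ⟨μ', fun v h h' v' hT hv => ?_⟩
  let σ : B := ⟨(v, h, h', v'), hT, hv⟩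
  have e0 : μ' v h = μ σ := hμ' σ
  refine ⟨by rw [e0]; exact h0 σ, ?_, ?_⟩
  · rw [e0]; exact (hμ' (r1 σ)).trans (h1 σ)
  · rw [e0]; exact (hμ' (r2 σ)).trans (h2 σ)

theorem exists_ext2 {E V S Q E1 Qs M Mb : Type} [Group Q] [Group Qs] [AddCommGroup M]
    [AddCommGroup Mb] [DistribMulAction Q M] [DistribMulAction Q Mb] (s : S → Q)
    {X : SqSys E} (L : Lab X V S (Rel4 s)) (vh : VHData L E1)
    (hnd : ∀ a b, ¬ vh.T a b (vh.inv b) (vh.inv a)) (D : QD Q Qs M Mb) :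
    ∃ (Ω : Type) (_ : Group Ω) (pr : Ω →* L.Xp.G) (j : Multiplicative M →* Ω) (al : Ω →* Qs),
      Surjective pr ∧ Injective j ∧ (∀ ω, pr ω = 1 ↔ ∃ m, ω = j (ofAdd m)) ∧
      (∀ m, al (j (ofAdd m)) = D.jb (ofAdd (D.ϖ m))) ∧ (∀ ω, D.π (al ω) = L.alpha (pr ω)) ∧
      ∀ ω m, ω * j (ofAdd m) * ω⁻¹ = j (ofAdd (D.π (al ω) • m)) := by
  classical
  let πs : FreeGroup S →* Qs := FreeGroup.lift fun x => surjInv D.π_surj (s x)
  have hπs : ∀ w, D.π (πs w) = FreeGroup.lift s w := by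
    have : D.π.comp πs = FreeGroup.lift s := by
      ext x
      simp [πs, surjInv_eq]
    exact fun w => DFunLike.congr_fun this w
  let A : E1 → Qs := fun e => πs (fl (vh.lab e))
  have hA : ∀ e, A (vh.inv e) = (A e)⁻¹ := fun e => by simp [A, vh.lab_inv, fl_bar]
  have hA2 : ∀ a b c d, vh.T a b c d → D.π (A a) * D.π (A b) = D.π (A c) * D.π (A d) := by
    intro a b c d h
    simp only [A, hπs]
    exact Lab.rel4_eq (vh.sq_lab h)
  obtain ⟨μ, hμ⟩ := exists_mu2 vh hnd D A hA hA2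
  obtain ⟨a, a1, a2, a3⟩ := VHData.exists_act (vh := vh) (α := fun e => D.π (A e)) (μ := μ)
    (fun e => by rw [hA, map_inv]) hA2 (fun v h h' v' hT hv => (hμ v h h' v' hT hv).2.1)
    (fun v h h' v' hT hv => (hμ v h h' v' hT hv).2.2)
  let J : Multiplicative M →* Equiv.Perm (vh.St M) × Qs :=
    vh.tr.prod (D.jb.comp (AddMonoidHom.toMultiplicative D.ϖ))
  have hJ : ∀ m, J (ofAdd m) = (vh.tr (ofAdd m), D.jb (ofAdd (D.ϖ m))) := fun _ => rfl
  let P : Subgroup (Equiv.Perm (vh.St M) × Qs) :=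
    { carrier := {x | ∀ m, x * J (ofAdd m) * x⁻¹ = J (ofAdd (D.π x.2 • m))}
      one_mem' := by intro m; simp
      mul_mem' := by
        intro x y hx hy m
        rw [Prod.snd_mul, map_mul, mul_smul, ← hx, ← hy]
        group
      inv_mem' := by
        intro x hx m
        have := hx ((D.π x.2)⁻¹ • m)
        rw [smul_inv_smul] at this
        rw [Prod.snd_inv, map_inv, ← this]
        group }
  have hJP : ∀ m, J m ∈ P := by
    intro m m'
    have : D.π (J m).2 = 1 := D.pi_jb _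
    rw [this, one_smul, ← map_mul, ← map_inv, ← map_mul, mul_inv_cancel_comm]
  let J' : Multiplicative M →* P := J.codRestrict P hJP
  have hAP : ∀ e, (a e, A e) ∈ P := by
    intro e m
    rw [hJ, hJ]
    refine Prod.ext ?_ (D.conj' _ _).symm
    change a e * _ * (a e)⁻¹ = _
    rw [a3, mul_inv_cancel_right]
  have hN : J'.range.Normal := by
    constructor
    rintro _ ⟨m, rfl⟩ x
    exact ⟨ofAdd (D.π x.1.2 • m.toAdd), Subtype.ext (x.2 m.toAdd).symm⟩
  let mk := QuotientGroup.mk' J'.range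
  let f : E1 → P ⧸ J'.range := fun e => mk ⟨(a e, A e), hAP e⟩
  have f1 : ∀ e, f e * f (vh.inv e) = 1 := by
    intro e
    simp only [f]
    rw [← map_mul, ← map_one mk]
    congr 1
    exact Subtype.ext (Prod.ext (a1 e) (by simp [hA]))
  have f2' : ∀ v h h' v', vh.T v h h' v' → vh.vert v → f v * f h = f h' * f v' := by
    intro v h h' v' hT hv
    have e1 : mk (J' (ofAdd (μ v h))) = 1 := (QuotientGroup.eq_one_iff _).2 ⟨_, rfl⟩
    simp only [f]
    rw [← one_mul (mk _ * mk ⟨(a v', A v'), _⟩), ← e1, ← map_mul, ← map_mul, ← map_mul]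
    congr 1
    refine Subtype.ext (Prod.ext (a2 v h h' v' hT hv) ?_)
    change A v * A h = D.jb (ofAdd (D.ϖ (μ v h))) * (A h' * A v')
    rw [(hμ v h h' v' hT hv).1, inv_mul_cancel_right]
  have f2 : ∀ x y z w, vh.T x y z w → f x * f y = f z * f w := by
    intro x y z w hT
    by_cases hx : vh.vert x
    · exact f2' _ _ _ _ hT hx
    · refine (f2' _ _ _ _ (vh.symm hT) ?_).symm
      by_contra hz
      exact hx ((vh.vh hT).2 hz)
  let ρ : L.Xp.G →* P ⧸ J'.range :=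
    L.liftP (fun e => if L.lft e then f (vh.pr e) else 1) (fun _ _ => 1)
      (by
        intro e
        by_cases h : L.lft e
        · simp only [h, L.lft_inv, if_true, vh.pr_inv e h, f1]
        · simp [h, L.lft_inv])
      (by
        intro x y z w h
        have h1 := (L.sq_side h).1
        have h2 := L.lft_b h
        by_cases ha : L.lft x <;> by_cases hc : L.lft z
        · simp only [h1, h2, ha, hc, if_true]
          exact f2 _ _ _ _ (vh.pr_sq h ha hc)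
        · simp [h1, h2, ha, hc, vh.pr_mixed h ha hc]
        · simp [h1, h2, ha, hc, vh.pr_mixed (X.symm h) hc ha]
        · simp [h1, h2, ha, hc])
  let al0 : P →* Qs := (MonoidHom.snd _ _).comp P.subtype
  let φ : P ⧸ J'.range →* Q := QuotientGroup.lift _ (D.π.comp al0) (by
    rintro _ ⟨m, rfl⟩
    exact D.pi_jb _)
  have hφ : φ.comp ρ = L.alpha := by
    apply L.hom_extP
    · intro e
      by_cases h : L.lft e
      · rw [L.alpha_left h, ← vh.pr_lab e h, ← hπs]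
        simp only [ρ, MonoidHom.comp_apply, Lab.liftP_ee, if_pos h]
        rfl
      · rw [L.alpha_right h]
        simp [ρ, h]
    · intro y o
      rw [L.alpha_tt]
      simp [ρ]
  let Ω : Subgroup (P × L.Xp.G) :=
    MonoidHom.eqLocus (mk.comp (MonoidHom.fst _ _)) (ρ.comp (MonoidHom.snd _ _))
  have hΩ : ∀ x : P × L.Xp.G, x ∈ Ω ↔ mk x.1 = ρ x.2 := fun _ => Iff.rfl
  let j : Multiplicative M →* Ω := (J'.prod 1).codRestrict Ω (by
    intro m
    rw [hΩ]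
    change mk (J' m) = ρ 1
    rw [map_one]
    exact (QuotientGroup.eq_one_iff _).2 ⟨_, rfl⟩)
  refine ⟨Ω, inferInstance, (MonoidHom.snd _ _).comp Ω.subtype, j,
    al0.comp ((MonoidHom.fst _ _).comp Ω.subtype), ?_, ?_, ?_, fun m => rfl, ?_, ?_⟩
  · intro g
    obtain ⟨x, hx⟩ := QuotientGroup.mk'_surjective J'.range (ρ g)
    exact ⟨⟨(x, g), hx⟩, rfl⟩
  · intro m m' h
    exact VHData.tr_inj (congrArg (fun x : Ω => x.1.1.1.1) h)
  · intro ω
    constructor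
    · intro h
      have h1 : ω.1.2 = 1 := h
      have h2 := (hΩ _).1 ω.2
      rw [h1, map_one] at h2
      obtain ⟨m, hm⟩ := (QuotientGroup.eq_one_iff _).1 h2
      exact ⟨m.toAdd, Subtype.ext (Prod.ext hm.symm h1)⟩
    · rintro ⟨m, rfl⟩
      rfl
  · intro ω
    rw [← hφ]
    change φ (mk ω.1.1) = φ (ρ ω.1.2)
    rw [(hΩ _).1 ω.2]
  · intro ω m
    refine Subtype.ext (Prod.ext (Subtype.ext (ω.1.1.2 m)) ?_)
    change ω.1.2 * 1 * ω.1.2⁻¹ = 1
    simp

theorem exists_paths2 {E V S Q : Type} [Finite E] [Finite V] [Nonempty V] [Finite S] [Group Q]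
    (s : S → Q) (hs : Surjective (FreeGroup.lift s))
    (hker : (FreeGroup.lift s).ker = Subgroup.normalClosure (tupWord '' Rel4 s))
    {X : SqSys E} (L : Lab X V S (Rel4 s)) :
    ∃ (A : Subgroup L.Xp.G) (W : Set (FreeGroup L.Core)), W.Finite ∧
      (∀ w ∈ W, FreeGroup.lift L.eta w ∈ A ∧ L.beta (FreeGroup.lift L.eta w) = 1) ∧
      (∀ g ∈ A, L.alpha g = 1 → g ∈ Subgroup.closure (FreeGroup.lift L.eta '' W)) ∧
      (A.map L.alpha).index ≠ 0 := by
  classical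
  obtain ⟨y0⟩ := ‹Nonempty V›
  let t0 := L.tt y0 none
  let A0 : Subgroup L.Xp.G :=
    { carrier := {g | ∃ w, L.LQ y0 g w y0}
      one_mem' := ⟨1, Lab.LQ.nil y0⟩
      mul_mem' := fun ⟨_, h⟩ ⟨_, h'⟩ => ⟨_, h.trans h'⟩
      inv_mem' := fun ⟨_, h⟩ => ⟨_, h.symm⟩ }
  let c : L.Xp.G →* L.Xp.G := (MulAut.conj t0).toMonoidHom
  have hc : ∀ g, c g = t0 * g * t0⁻¹ := fun _ => rfl
  have hca : ∀ g, L.alpha (c g) = L.alpha g := fun g => by simp [hc, t0, L.alpha_tt]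
  have hal : ∀ y g w y', L.LQ y g w y' → L.alpha g = FreeGroup.lift s w := fun y g w y' h => by
    simpa using (h 1).alpha_eq
  obtain ⟨N, hN, hN1, hN2⟩ := Lab.exists_gens (L := L) y0
  have hr : ∀ g : N, ∃ w, FreeGroup.lift L.eta w = c g := fun g => (hN1 _ g.2).mem_range
  choose W hW using hr
  have : Finite N := hN
  have hidx : (A0.map L.alpha).index ≠ 0 := by
    have h1 : ∀ q : Q, ∃ g y', ∃ w, L.LQ y0 g w y' ∧ L.alpha g = q := by
      intro q
      obtain ⟨w, rfl⟩ := hs q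
      obtain ⟨g, y', h⟩ := Lab.LQ.exists (L := L) w y0
      exact ⟨g, y', w, h, hal _ _ _ _ h⟩
    choose g y w hq hg using h1
    have : Finite (Q ⧸ A0.map L.alpha) := by
      refine Finite.of_injective (fun x : Q ⧸ A0.map L.alpha => y x.out⁻¹) fun x x' h => ?_
      rw [← x.out_eq, ← x'.out_eq]
      have h' : y x.out⁻¹ = y x'.out⁻¹ := h
      have h2 := (hq x'.out⁻¹).symm
      rw [← h'] at h2
      refine QuotientGroup.eq.2 ⟨g x.out⁻¹ * (g x'.out⁻¹)⁻¹, ⟨_, (hq _).trans h2⟩, ?_⟩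
      rw [map_mul, map_inv, hg, hg, inv_inv]
    exact Subgroup.index_ne_zero_of_finite
  refine ⟨A0.map c, Set.range W, Set.finite_range W, ?_, ?_, ?_⟩
  · rintro _ ⟨g, rfl⟩
    rw [hW]
    refine ⟨⟨g, ⟨_, (hN1 _ g.2).toLQ⟩, rfl⟩, ?_⟩
    simp [hc, t0, L.beta_tt, (hN1 _ g.2).beta_eq]
  · rintro _ ⟨g, ⟨w, hw⟩, rfl⟩ h1
    rw [hca, hal _ _ _ _ hw] at h1
    have h2 := hw.trans (Lab.LQ.of_rel (L := L) (by rw [← hker]; exact h1) y0).symm 1
    simp only [inv_one, mul_one, mul_inv_cancel] at h2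
    have h3 := Subgroup.mem_map_of_mem c (hN2 g (h2.to_core (by simp) (by simp)))
    rw [MonoidHom.map_closure] at h3
    refine Subgroup.closure_mono ?_ h3
    rintro _ ⟨g, hg, rfl⟩
    exact ⟨_, ⟨⟨g, hg⟩, rfl⟩, hW _⟩
  · have : L.alpha.comp c = L.alpha := MonoidHom.ext hca
    rwa [Subgroup.map_map, this]

end Pool.Agent.Lib.SE86
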