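import Pool.Agent.Lib.SE86.Cost

namespace Pool.Agent.Lib.SE86

open Pool.Agent.Lib.MP_28a49a_al Pool.Agent.Lib.MP_28a49a_al.W

/-- rewriting along the cosets of a subgroup of finite index -/
theorem schreier {Λ Ω Qs : Type} [Finite Λ] [DecidableEq Λ] [Group Ω] [Group Qs] (al : Ω →* Qs)
    (A : Subgroup Ω) (P : Subgroup Qs) (hP : P.index ≠ 0) (hPA : ∀ h ∈ P, ∃ ω ∈ A, al ω = h)
    (g : Λ → Qs) (Cost : Ω → ℕ → Prop) (cone : Cost 1 0)
    (cmul : ∀ a b m n, Cost a m → Cost b n → Cost (a * b) (m + n))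
    (cinv : ∀ a m, Cost a m → Cost a⁻¹ m) (cmono : ∀ a m n, Cost a m → m ≤ n → Cost a n)
    (cfin : ∀ ω ∈ A, al ω = 1 → ∃ n, Cost ω n)
    (cconj : ∀ U : Set Ω, U.Finite → (∀ u ∈ U, u ∈ A) →
      ∃ C, 1 ≤ C ∧ ∀ u ∈ U, ∀ a m, Cost a m → Cost (u * a * u⁻¹) (C * m)) :
    ∃ (ρ : FreeGroup Λ → Ω) (R : FreeGroup Λ → ℕ → Prop) (C : ℕ), 1 ≤ C ∧
      CC (FreeGroup.lift g) R C ∧ (∀ w n, R w n → Cost (ρ w) n) ∧ (∀ w, ρ w ∈ A) ∧
      (∀ w, FreeGroup.lift g w ∈ P → al (ρ w) = FreeGroup.lift g w) ∧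
      (∀ w w', FreeGroup.lift g w ∈ P → ρ (w * w') = ρ w * ρ w') ∧ ρ 1 = 1 ∧
      ∀ w a m, Cost a m → Cost (ρ w * a * (ρ w)⁻¹) (C ^ FreeGroup.norm w * m) := by
  classical
  have : Finite (Qs ⧸ P) := Subgroup.index_ne_zero_iff_finite.1 hP
  let c0 : Qs ⧸ P := (1 : Qs)
  let T : Qs ⧸ P → Qs := fun c => if c = c0 then 1 else c.out
  have hT : ∀ c, (T c : Qs ⧸ P) = c := fun c => by
    simp only [T]
    split_ifs with h
    · exact h.symm
    · exact c.out_eq
  have hT0 : T c0 = 1 := if_pos rfl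
  have h1 : ∀ (x : Λ) (c : Qs ⧸ P), ∃ ω ∈ A, al ω = (T c)⁻¹ * g x * T ((g x)⁻¹ • c) := by
    intro x c
    apply hPA
    rw [mul_assoc, ← QuotientGroup.eq, hT]
    change c = g x • ((T ((g x)⁻¹ • c) : Qs) : Qs ⧸ P)
    rw [hT, smul_inv_smul]
  choose ω hωA hω using h1
  let Ψ : FreeGroup Λ →* ((Qs ⧸ P) → Ω) ⋊[mulAutArrow] Qs := FreeGroup.lift fun x => ⟨ω x, g x⟩
  have hr : ∀ w, (Ψ w).right = FreeGroup.lift g w := fun w =>
    DFunLike.congr_fun (FreeGroup.ext_hom (SemidirectProduct.rightHom.comp Ψ) (FreeGroup.lift g)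
      (by simp [Ψ])) w
  have hmul : ∀ w w' c, (Ψ (w * w')).left c =
      (Ψ w).left c * (Ψ w').left ((FreeGroup.lift g w)⁻¹ • c) := fun w w' c => by
    rw [map_mul, ← hr]
    rfl
  have hone : ∀ c, (Ψ 1).left c = 1 := fun c => by rw [map_one]; rfl
  have hinv : ∀ w c, (Ψ w⁻¹).left ((FreeGroup.lift g w)⁻¹ • c) = ((Ψ w).left c)⁻¹ := fun w c => by
    rw [eq_comm, inv_eq_iff_mul_eq_one, ← hmul, mul_inv_cancel, hone]
  have hinv' : ∀ w c, (Ψ w⁻¹).left c = ((Ψ w).left (FreeGroup.lift g w • c))⁻¹ := fun w c => by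
    rw [← hinv, inv_smul_smul]
  have hall : ∀ w c, (Ψ w).left c ∈ A ∧
      al ((Ψ w).left c) = (T c)⁻¹ * FreeGroup.lift g w * T ((FreeGroup.lift g w)⁻¹ • c) := by
    intro w
    induction w using FreeGroup.induction_on with
    | C1 => intro c; rw [hone]; simp
    | of x => intro c; simpa [Ψ] using ⟨hωA x c, hω x c⟩
    | inv_of x ih =>
      intro c
      rw [hinv']
      refine ⟨inv_mem (ih _).1, ?_⟩
      rw [map_inv, (ih _).2, inv_smul_smul, map_inv, inv_inv]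
      group
    | mul u v hu hv =>
      intro c
      rw [hmul]
      refine ⟨mul_mem (hu _).1 (hv _).1, ?_⟩
      rw [map_mul, (hu _).2, (hv _).2, map_mul, mul_inv_rev, mul_smul]
      group
  obtain ⟨C, hC1, hC⟩ := cconj
    (Set.range fun p : (Λ × Bool) × (Qs ⧸ P) => (Ψ (FreeGroup.mk [p.1])).left p.2)
    (Set.finite_range _) (by rintro _ ⟨p, rfl⟩; exact (hall _ _).1)
  let R : FreeGroup Λ → ℕ → Prop := fun w n =>
    FreeGroup.lift g w = 1 ∧ ∀ c, Cost ((Ψ w).left c) n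
  have hcj : ∀ (x : Λ × Bool) a m, R a m →
      R (FreeGroup.mk [x] * a * (FreeGroup.mk [x])⁻¹) (C * m) := by
    rintro x a m ⟨ha, hm⟩
    refine ⟨by simp only [map_mul, ha, map_inv, mul_one, mul_inv_cancel], fun c => ?_⟩
    rw [hmul, hmul, map_mul, ha, mul_one, hinv]
    exact hC _ ⟨(x, c), rfl⟩ _ _ (hm _)
  have hcalc : CostCalc (FreeGroup.of : Λ → FreeGroup Λ) R C :=
    { one := ⟨map_one _, fun c => by rw [hone]; exact cone⟩
      mul := fun {a b m n} ha hb => ⟨by rw [map_mul, ha.1, hb.1, mul_one], fun c => by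
        rw [hmul]; exact cmul _ _ _ _ (ha.2 _) (hb.2 _)⟩
      inv := fun {a m} ha => ⟨by rw [map_inv, ha.1, inv_one], fun c => by
        rw [hinv']; exact cinv _ _ (ha.2 _)⟩
      mono := fun {a m n} ha h => ⟨ha.1, fun c => cmono _ _ _ (ha.2 c) h⟩
      conj := fun {a m} l ha => hcj (l, true) a m ha
      conj' := fun {a m} l ha => by
        have := hcj (l, false) a m ha
        rwa [show FreeGroup.mk [(l, false)] = (FreeGroup.of l)⁻¹ from rfl, inv_inv] at this }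
  have hcc := CC.of_calc (g := FreeGroup.lift g) hcalc fun w hw => by
    have h2 : ∀ c, ∃ n, Cost ((Ψ w).left c) n := fun c =>
      cfin _ (hall w c).1 (by rw [(hall w c).2, hw]; simp)
    choose n hn using h2
    obtain ⟨B, hB⟩ := (Set.finite_range n).bddAbove
    rw [FreeGroup.lift_of_apply]
    exact ⟨B, hw, fun c => cmono _ _ _ (hn c) (hB ⟨c, rfl⟩)⟩
  simp only [FreeGroup.lift_of_apply] at hcc
  have hfix : ∀ w, FreeGroup.lift g w ∈ P → (FreeGroup.lift g w)⁻¹ • c0 = c0 := fun w hw => by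
    change (((FreeGroup.lift g w)⁻¹ * 1 : Qs) : Qs ⧸ P) = (1 : Qs)
    rw [QuotientGroup.eq]
    simpa using hw
  refine ⟨fun w => (Ψ w).left c0, R, C, hC1, hcc, fun w n h => h.2 _, fun w => (hall w _).1,
    fun w hw => ?_, fun w w' hw => ?_, hone _, fun w a m ha => ?_⟩
  · simp only [(hall w _).2, hfix w hw, hT0, inv_one, one_mul, mul_one]
  · simp only [hmul, hfix w hw]
  · have key : ∀ (L : List (Λ × Bool)) c, Cost ((Ψ (FreeGroup.mk L)).left c * a *
        ((Ψ (FreeGroup.mk L)).left c)⁻¹) (C ^ L.length * m) := by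
      intro L
      induction L with
      | nil => intro c; rw [← FreeGroup.one_eq_mk, hone]; simpa using ha
      | cons x L ih =>
        intro c
        have e1 : FreeGroup.mk (x :: L) = FreeGroup.mk [x] * FreeGroup.mk L := by
          rw [FreeGroup.mul_mk]; rfl
        rw [e1, hmul, List.length_cons, pow_succ', mul_assoc C]
        convert hC _ ⟨(x, c), rfl⟩ _ _ (ih ((FreeGroup.lift g (FreeGroup.mk [x]))⁻¹ • c)) using 1
        group
    simpa only [FreeGroup.mk_toWord, FreeGroup.norm] using key w.toWord c0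

end Pool.Agent.Lib.SE86
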