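import Pool.Agent.Lib.MP_28a49a_al.TowerData
import Pool.Agent.Lib.SE86.Low

namespace Pool.Agent.Lib.SE86

open Function Multiplicative SemidirectProduct Pool.Agent.Lib.MP_28a49a_al
  Pool.Agent.Lib.MP_28a49a_al.W

theorem qdata2 {A G B : Type} [Group A] [Group G] [Group B] {j : A →* G}
    (Φ : Ind j (1 : A →* MulAut Zm) →* B) (hj : Injective j) (hΦ : Injective Φ) (lam0 : A →* Zm)
    {Λ1 Λ : Type} [Finite Λ1] [Finite Λ] [DecidableEq Λ1] [DecidableEq Λ] (e1 : Λ1 → G)
    (e : Λ → B) (θ1 θ2 : Λ1 → FreeGroup Λ)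
    (h1 : ∀ x, FreeGroup.lift e (θ1 x) = Φ (inG (e1 x)))
    (h2 : ∀ x, Commute (Φ (inS (ofAdd 1))) (FreeGroup.lift e (θ2 x)))
    (w : ℕ → FreeGroup Λ1) (hw : LL w)
    (hc : Cheap e fun k => FreeGroup.lift θ1 (w k) * (FreeGroup.lift θ2 (w k))⁻¹) (F : ℕ → ℕ)
    (hg : ∀ k, ∃ a, FreeGroup.lift e1 (w k) = j a ∧ (F k : ℤ) ≤ toAdd (lam0 a)) :
    ∃ D : QD (QQ Φ) (QS Φ) (Pm (QQ Φ)) (MB Φ), D.Test F := by
  choose av h4 h5 using hg
  obtain ⟨co, hco⟩ := exists_co ((gam Φ).comp j)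
    (((inG_injective.comp hΦ).comp inG_injective).comp hj)
  let lam : Pm (QQ Φ) →+ ℤ := Pm.lift fun x => toAdd (lam0 (co x))
  have hlam : ∀ x a, lam0 (co (x * gam Φ (j a))) = lam0 (co x) * lam0 a := fun x a => by
    rw [← map_mul, ← hco]; rfl
  refine ⟨{ π := rightHom.comp (QS Φ).subtype
            π_surj := fun q => ?_
            jb := jb Φ
            jb_inj := fun a b h => toAdd.injective (Subtype.ext
              (ofAdd.injective (inl_injective (congrArg Subtype.val h))))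
            jb_range := ?_
            jb_conj := fun g m => Subtype.ext (conj_inl Φ g.1 m.1)
            ϖ := (del Φ).rangeRestrict
            ϖ_surj := (del Φ).rangeRestrict_surjective
            ϖ_smul := fun q m => Subtype.ext (del_smul Φ q m)
            lam := lam
            bdd := fun m hm => ⟨(lam m).natAbs, fun q => ?_⟩ }, ?_⟩
  · obtain ⟨x, hx⟩ := QuotientGroup.mk'_surjective (Nb Φ) (tau Φ q)
    exact ⟨⟨x, q, hx.symm⟩, (congrArg (rho Φ) hx).trans (rho_tau Φ q)⟩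
  · refine le_antisymm ?_ ?_
    · rintro _ ⟨m, rfl⟩
      rfl
    · rintro ⟨x, q, hq⟩ hx
      have h1 : q = 1 := by rw [← rho_tau Φ q, hq]; exact hx
      rw [h1, map_one, eq_comm] at hq
      obtain ⟨h2, h3⟩ := (QuotientGroup.eq_one_iff _).1 hq
      exact ⟨ofAdd ⟨_, h3⟩, Subtype.ext (SemidirectProduct.ext rfl h2.symm)⟩
  · have h1 := lam_inv Φ hΦ (fun x => lam0 (co (q * x)) * (lam0 (co x))⁻¹)
      (fun x a => by simp only [← mul_assoc, hlam]; apply toAdd.injective; simp) m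
      (congrArg Subtype.val hm)
    rw [Pm.hom_ext (g := lam.comp (DistribSMul.toAddMonoidHom _ q) - lam)
      (fun x => by simp [lam, sub_eq_add_neg]) m] at h1
    have h2 : lam (q • m) = lam m := sub_eq_zero.1 h1
    rw [h2, Int.natCast_natAbs]
  · let e' : Λ ⊕ Bool → QS Φ := Sum.elim (fun l => inB Φ (e l))
      fun b => cond b ⟨sh Φ, sh_mem Φ⟩ (inB Φ (Φ (inS (ofAdd 1))))
    let ι : Λ → FreeGroup (Λ ⊕ Bool) := fun x => .of (.inl x)
    have hι : ∀ v, FreeGroup.lift e' (FreeGroup.lift ι v) = inB Φ (FreeGroup.lift e v) :=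
      lift_lift (inB Φ) fun x => by simp [ι, e']
    let α : Λ1 → FreeGroup (Λ ⊕ Bool) := fun x => FreeGroup.lift ι (θ1 x)
    let β : Λ1 → FreeGroup (Λ ⊕ Bool) := fun x => FreeGroup.lift ι (θ2 x)
    have hα : ∀ v, FreeGroup.lift ι (FreeGroup.lift θ1 v) = FreeGroup.lift α v := fun v =>
      DFunLike.congr_fun (FreeGroup.ext_hom ((FreeGroup.lift ι).comp (FreeGroup.lift θ1))
        (FreeGroup.lift α) (by simp [α])) v
    have hβ : ∀ v, FreeGroup.lift ι (FreeGroup.lift θ2 v) = FreeGroup.lift β v := fun v =>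
      DFunLike.congr_fun (FreeGroup.ext_hom ((FreeGroup.lift ι).comp (FreeGroup.lift θ2))
        (FreeGroup.lift β) (by simp [β])) v
    have hval : ∀ v, FreeGroup.lift e' (FreeGroup.lift α v) =
        inB Φ (Φ (inG (FreeGroup.lift e1 v))) :=
      lift_lift ((inB Φ).comp (Φ.comp inG)) fun x => by rw [hι, h1]; rfl
    have hs : ∀ g, Commute (⟨sh Φ, sh_mem Φ⟩ : QS Φ) (inB Φ (Φ (inG g))) := fun g => by
      have := conj_sh Φ (inG g)
      rw [show eta Φ (inG g) • e0 Φ = e0 Φ from gam_e0 Φ g, sub_self, ofAdd_zero, map_one,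
        one_mul, mul_inv_eq_iff_eq_mul] at this
      exact Subtype.ext this.symm
    let S : FreeGroup (Λ ⊕ Bool) := .of (.inr true)
    let Bb : FreeGroup (Λ ⊕ Bool) := .of (.inr false)
    refine ⟨Λ ⊕ Bool, inferInstance, inferInstance, e', fun N hN => ⟨dl Φ N,
      S ^ N * Bb ^ N * (S ^ N)⁻¹ * (Bb ^ N)⁻¹, fun k => FreeGroup.lift α (w k) ^ N, ?_,
      LL_pow (LL_lift α hw) N, fun k => ⟨_, map_pow _ _ _⟩, fun R C h => ?_, fun k => ?_⟩⟩
    · simp only [map_mul, map_inv, map_pow, S, Bb, FreeGroup.lift_apply_of]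
      refine Subtype.ext (Eq.trans ?_ (comm_sh Φ N))
      simp [e']
      rfl
    · have kS := eb_comm_pow h (h.eb_comm α S (fun y => by
        have := hval (.of y)
        rw [FreeGroup.lift_apply_of] at this
        rw [this]
        simpa [S, e'] using hs _) hw) N
      have k0 := hc.map e' ι (inB Φ) (fun x => by simp [ι, e']) R C h
      simp only [map_mul, map_inv, hα, hβ] at k0
      have kB := eb_comm_pow h (h.eb_comm_congr k0 (h.eb_comm β Bb (fun y => by
        rw [hι]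
        simpa [Bb, e'] using (h2 y).map (inB Φ)) hw)) N
      exact eb_pow_comm h (LL_lift α hw) (h.eb_comm_mul (h.eb_comm_mul (h.eb_comm_mul kS kB)
        (h.eb_comm_inv kS)) (h.eb_comm_inv kB)) N
    · change (F k : ℤ) ≤ |lam ((rightHom.comp (QS Φ).subtype)
        (FreeGroup.lift e' (FreeGroup.lift α (w k) ^ N)) • dl Φ N - dl Φ N)|
      have hπ : ∀ g, (rightHom.comp (QS Φ).subtype) (inB Φ (Φ (inG g))) = gam Φ g :=
        fun _ => rfl
      have h6 : (rightHom.comp (QS Φ).subtype) (FreeGroup.lift e' (FreeGroup.lift α (w k) ^ N)) =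
          gam Φ (j (av k ^ N)) := by
        rw [map_pow (FreeGroup.lift e'), hval, h4, map_pow (rightHom.comp (QS Φ).subtype), hπ,
          map_pow j, map_pow (gam Φ)]
      have h7 : ∀ (a' : A) (i k : ℕ), gam Φ (j a') * (ss Φ ^ i * bb Φ ^ k) =
          ss Φ ^ i * bb Φ ^ k * gam Φ (j a') := fun a' i k =>
        (((comm_ss Φ (inG (j a'))).pow_right i).mul_right ((comm_bb Φ a').pow_right k)).eq
      have h8 : ∀ a', lam (gam Φ (j a') • dl Φ N - dl Φ N) = -(N * (N * toAdd (lam0 a'))) :=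
        fun a' => by simp [dl, Finset.smul_sum, lam, h7, hlam, Finset.sum_add_distrib]
      rw [h6, h8, abs_neg, map_pow, toAdd_pow, nsmul_eq_mul]
      refine (h5 k).trans (le_trans ?_ (le_abs_self _))
      have h9 : (0 : ℤ) ≤ toAdd (lam0 (av k)) := le_trans (by positivity) (h5 k)
      have h10 : (1 : ℤ) ≤ N := by exact_mod_cast hN
      have h11 : ∀ x : ℤ, 0 ≤ x → x ≤ N * x := fun x hx => le_mul_of_one_le_left hx h10
      exact (h11 _ h9).trans ((h11 _ (by positivity)).trans (h11 _ (by positivity)))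

lemma qd_prod {Q Qs M Mb : Type} [Group Q] [Group Qs] [AddCommGroup M] [AddCommGroup Mb]
    [DistribMulAction Q M] [DistribMulAction Q Mb] (d : QD Q Qs M Mb) {F : ℕ → ℕ}
    (hd : d.Test F) : ∃ (_ : DistribMulAction (Q × Zm) M) (_ : DistribMulAction (Q × Zm) Mb)
      (D : QD (Q × Zm) (Qs × Zm) M Mb), D.Test F := by
  let _ := DistribMulAction.compHom M (MonoidHom.fst Q Zm)
  let _ := DistribMulAction.compHom Mb (MonoidHom.fst Q Zm)
  refine ⟨inferInstance, inferInstance, {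
    π := d.π.prodMap (MonoidHom.id Zm)
    π_surj := d.π_surj.prodMap Function.surjective_id
    jb := (MonoidHom.inl Qs Zm).comp d.jb
    jb_inj := fun a b h => d.jb_inj (congrArg Prod.fst h)
    jb_range := ?_
    jb_conj := fun g m => Prod.ext (d.jb_conj g.1 m) (by simp)
    ϖ := d.ϖ
    ϖ_surj := d.ϖ_surj
    ϖ_smul := fun q m => d.ϖ_smul q.1 m
    lam := d.lam
    bdd := fun m hm => (d.bdd m hm).imp fun B hB q => hB q.1 }, ?_⟩
  · refine le_antisymm ?_ ?_
    · rintro _ ⟨m, rfl⟩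
      exact Prod.ext (d.jb_range.le ⟨m, rfl⟩) rfl
    · rintro ⟨x, n⟩ h
      obtain ⟨m, hm⟩ := d.jb_range.ge (show x ∈ d.π.ker from congrArg Prod.fst h)
      exact ⟨m, Prod.ext hm (congrArg Prod.snd h).symm⟩
  · obtain ⟨Λ, _, _, g, h⟩ := hd
    have e : ∀ w, FreeGroup.lift (fun l => ((g l, 1) : Qs × Zm)) w = (FreeGroup.lift g w, 1) :=
      fun w => DFunLike.congr_fun (FreeGroup.ext_hom _
        ((MonoidHom.inl Qs Zm).comp (FreeGroup.lift g)) (by simp)) w
    refine ⟨Λ, inferInstance, inferInstance, fun l => (g l, 1), fun N hN => ?_⟩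
    obtain ⟨δ, σ, l, h1, h2, h3, h4, h5⟩ := h N hN
    refine ⟨δ, σ, l, by rw [e, h1]; rfl, h2, fun k => ?_, ?_, fun k => by rw [e]; exact h5 k⟩
    · obtain ⟨x, hx⟩ := h3 k
      exact ⟨(x, 1), by simp [e, hx]⟩
    · simpa only [FreeGroup.lift_of_apply] using
        h4.map (fun l => ((g l, 1) : Qs × Zm)) FreeGroup.of (MonoidHom.inl Qs Zm) (by simp)

end Pool.Agent.Lib.SE86
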