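import Pool.Agent.Lib.SE86.Transfer

namespace Pool.Agent.Lib.SE86

open Function Multiplicative SemidirectProduct Pool.Agent.Lib.MP_28a49a_al
  Pool.Agent.Lib.MP_28a49a_al.W Pool.Agent.Lib.MP_28a49a_al.HomFP

section hnn
variable {G : Type} [Group G] {A B : Subgroup G} {φ : A ≃* B}

open HNNExtension in
theorem cocycle_hnn {M : Type} [AddCommGroup M] (κ : HNNExtension G A B φ → M)
    (hκ : ∀ g (a : A), κ (g * of (a : G)) = κ g) :
    ∃ δ : HNNExtension G A B φ → M, (∀ g v, δ (g * of v) = δ g) ∧
      ∀ g, δ (g * t⁻¹) = δ g + κ g := by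
  let τ : Equiv.Perm (HNNExtension G A B φ × M) :=
    { toFun := fun z => (z.1 * t⁻¹, z.2 + κ z.1)
      invFun := fun z => (z.1 * t, z.2 - κ (z.1 * t))
      left_inv := fun z => by simp
      right_inv := fun z => by simp }
  have hτ : ∀ z, τ z = (z.1 * t⁻¹, z.2 + κ z.1) := fun _ => rfl
  let F : HNNExtension G A B φ →* Equiv.Perm (HNNExtension G A B φ × M) :=
    HNNExtension.lift ((HomFP.act fun _ => 0).comp of) τ fun a => by
      ext1 z
      have h1 := hκ z.1 a⁻¹
      rw [Subgroup.coe_inv, map_inv] at h1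
      simp only [Equiv.Perm.mul_apply, MonoidHom.comp_apply, HomFP.act_apply, hτ, h1, add_zero,
        sub_zero, mul_assoc, ← mul_inv_rev, t_mul_of]
  have hF : ∀ v z, F (of v) z = (z.1 * (of v)⁻¹, z.2) := fun v z => by
    simp [F, HomFP.act_apply]
  have hFt : F t = τ := by simp [F]
  have h1 : ∀ x z, (F x z).1 = z.1 * x⁻¹ := by
    intro x
    induction x using HNNExtension.induction_on with
    | of g => intro z; rw [hF]
    | t => intro z; rw [hFt, hτ]
    | mul x y hx hy => intro z; rw [map_mul, Equiv.Perm.mul_apply, hx, hy, mul_inv_rev, mul_assoc]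
    | inv x hx =>
      intro z
      have := hx (F x⁻¹ z)
      rw [← Equiv.Perm.mul_apply, ← map_mul, mul_inv_cancel, map_one,
        Equiv.Perm.one_apply] at this
      rw [this]
      simp
  refine ⟨fun g => (F g⁻¹ (1, 0)).2, fun g v => ?_, fun g => ?_⟩
  · simp only [mul_inv_rev, map_mul, Equiv.Perm.mul_apply]
    rw [← map_inv of, hF]
  · simp only [mul_inv_rev, inv_inv, map_mul, Equiv.Perm.mul_apply, hFt, hτ, h1, one_mul]

theorem cls_equiv {G H : Type} [Group G] [Group H] (e : G ≃* H) (ih : Cls G) : Cls H := by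
  intro Q K _ _ i p hi hp hN
  refine ih Q K i (e.symm.toMonoidHom.comp p) hi (e.symm.surjective.comp hp) ?_
  have : (e.symm.toMonoidHom.comp p).ker = p.ker := by
    ext x
    simp
  rwa [this]

open HNNExtension in
theorem cls_hnn (hG : Cls G) (hA : Cls A) : Cls (HNNExtension G A B φ) := by
  intro Q H _ _ i p hi hp hN
  have fA := (cls_equiv (MonoidHom.ofInjective (of_injective φ)) hG).sub _ i p hi hp hN
  have fC := (cls_equiv (MonoidHom.ofInjective (f := (of : G →* HNNExtension G A B φ).comp A.subtype)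
    ((of_injective φ).comp Subtype.val_injective)) hA).sub _ i p hi hp hN
  set A' := ((of : G →* HNNExtension G A B φ).range.comap p).map i
  set C' := (((of : G →* HNNExtension G A B φ).comp A.subtype).range.comap p).map i
  have lA : C' ≤ A' := Subgroup.map_mono (Subgroup.comap_mono (by
    rintro _ ⟨a, rfl⟩
    exact ⟨a, rfl⟩))
  have uA : A' ≤ i.range := Subgroup.map_le_range i _
  obtain ⟨τ, hτ⟩ := hp t
  let κ : Q → HNNExtension G A B φ → PM Q (Q ⧸ C') := fun r g =>
    PM.e Q ((r * i (surjInv hp g) : Q) : Q ⧸ C')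
  have hκ : ∀ r (x : H), κ r (p x) = PM.e Q ((r * i x : Q) : Q ⧸ C') := by
    intro r x
    simp only [κ]
    congr 1
    rw [QuotientGroup.eq]
    refine ⟨(surjInv hp (p x))⁻¹ * x, ?_, ?_⟩
    · change p _ ∈ MonoidHom.range _
      rw [map_mul, map_inv, surjInv_eq hp, inv_mul_cancel]
      exact one_mem _
    · rw [map_mul, map_inv]
      group
  have hκ' : ∀ r g (a : A), κ r (g * of (a : G)) = κ r g := by
    intro r g a
    obtain ⟨x, rfl⟩ := hp g
    obtain ⟨y, hy⟩ := hp (of (a : G))
    rw [← hy, ← map_mul, hκ, hκ]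
    congr 1
    rw [QuotientGroup.eq]
    refine ⟨y⁻¹, ?_, ?_⟩
    · change p _ ∈ MonoidHom.range _
      rw [map_inv, hy]
      exact inv_mem ⟨a, rfl⟩
    · rw [map_mul, map_inv]
      group
  choose δ hδA hδB using fun r => cocycle_hnn (κ r) (hκ' r)
  let rep : Q → Q := fun q => (q : Q ⧸ i.range).out
  have hrep : ∀ q, ∃ x, rep q * i x = q := by
    intro q
    obtain ⟨y, hy⟩ := QuotientGroup.mk_out_eq_mul i.range q
    obtain ⟨x, hx⟩ := y.2
    exact ⟨x⁻¹, by simp only [rep]; rw [hy, map_inv, hx]; group⟩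
  choose j hj using hrep
  have hrep2 : ∀ q x, rep (q * i x) = rep q := by
    intro q x
    simp only [rep]
    congr 1
    rw [QuotientGroup.eq]
    exact ⟨x⁻¹, by rw [map_inv]; group⟩
  have hj2 : ∀ q x, j (q * i x) = j q * x := by
    intro q x
    apply hi
    apply mul_left_cancel (a := rep q)
    rw [map_mul, ← mul_assoc, hj, ← hrep2 q x, hj]
  let ψ : Q → PM Q (Q ⧸ C') := fun q => δ (rep q) (p (j q))
  have hψA : ∀ q x, p x ∈ (of : G →* HNNExtension G A B φ).range → ψ (q * i x) = ψ q := by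
    rintro q x ⟨v, hv⟩
    simp only [ψ]
    rw [hrep2, hj2, map_mul, ← hv, hδA]
  have hψB : ∀ q, ψ (q * i τ⁻¹) = ψ q + PM.e Q (q : Q ⧸ C') := by
    intro q
    simp only [ψ]
    rw [hrep2, hj2, map_mul, map_inv, hτ, hδB, hκ, hj]
  let hAq : Q ⧸ A' → PM Q (Q ⧸ C') := Quotient.lift ψ (by
    intro a b hab
    obtain ⟨x, hx, e⟩ := QuotientGroup.leftRel_apply.1 hab
    have : b = a * i x := by rw [e]; group
    rw [this, hψA _ _ hx])
  let tt : Q ⧸ C' → Q ⧸ A' := Quotient.map' (fun q => q * i τ⁻¹) (by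
    intro a b hab
    rw [QuotientGroup.leftRel_apply] at hab ⊢
    obtain ⟨x, ⟨c, hc⟩, e⟩ := hab
    refine ⟨τ * x * τ⁻¹, ⟨φ c, ?_⟩, ?_⟩
    · rw [map_mul, map_mul, map_inv, hτ, ← hc, equiv_eq_conj]
      rfl
    · rw [map_mul, map_mul, e, map_inv]
      group)
  refine PM.fp_tree (Subgroup.quotientMapOfLE lA) tt (qmap_smul lA) ?_
    (Subgroup.quotientMapOfLE uA) (qmap_smul uA) (qmap_surj uA) ?_ ?_ hAq ?_ fC fA
  · intro g x
    induction x using QuotientGroup.induction_on with
    | H q =>
      change ((g * q * i τ⁻¹ : Q) : Q ⧸ A') = (g * (q * i τ⁻¹) : Q)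
      rw [mul_assoc]
  · intro x
    induction x using QuotientGroup.induction_on with
    | H q =>
      change (q : Q ⧸ i.range) = (q * i τ⁻¹ : Q)
      rw [QuotientGroup.eq]
      exact ⟨τ⁻¹, by group⟩
  · let rel : Q ⧸ A' → Q ⧸ A' → Prop :=
      Relation.EqvGen fun a b => ∃ x, Subgroup.quotientMapOfLE lA x = a ∧ tt x = b
    have r0 : ∀ x, p x ∈ (of : G →* HNNExtension G A B φ).range → ∀ q : Q,
        rel (q : Q ⧸ A') ((q * i x : Q) : Q ⧸ A') := fun x hx q => by
      have : ((q * i x : Q) : Q ⧸ A') = q := by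
        rw [eq_comm, QuotientGroup.eq]
        exact ⟨x, hx, by group⟩
      rw [this]
      exact Relation.EqvGen.refl _
    let K : Subgroup H :=
      { carrier := {x | ∀ q : Q, rel (q : Q ⧸ A') ((q * i x : Q) : Q ⧸ A')}
        one_mem' := r0 1 (by rw [map_one]; exact one_mem _)
        mul_mem' := by
          intro x y hx hy q
          rw [map_mul, ← mul_assoc]
          exact Relation.EqvGen.trans _ _ _ (hx q) (hy _)
        inv_mem' := by
          intro x hx q
          have := hx (q * i x⁻¹)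
          rw [mul_assoc, ← map_mul, inv_mul_cancel, map_one, mul_one] at this
          exact Relation.EqvGen.symm _ _ this }
    have hτK : τ ∈ K := K.inv_mem_iff.1 fun q => Relation.EqvGen.rel _ _ ⟨(q : Q ⧸ C'), rfl, rfl⟩
    have hK : ∀ g : HNNExtension G A B φ, g ∈ K.map p := by
      intro g
      induction g using HNNExtension.induction_on with
      | of g =>
        obtain ⟨x, hx⟩ := hp (of g)
        exact ⟨x, r0 x ⟨g, hx.symm⟩, hx⟩
      | t => exact ⟨τ, hτK, hτ⟩
      | mul x y hx hy => exact mul_mem hx hy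
      | inv x hx => exact inv_mem hx
    intro v v'
    induction v using QuotientGroup.induction_on with
    | H q =>
    induction v' using QuotientGroup.induction_on with
    | H q' =>
    intro hq
    obtain ⟨x, hx⟩ := QuotientGroup.eq.1 hq
    obtain ⟨y, hy, e⟩ := hK (p x)
    have h1 : y⁻¹ * x ∈ K := r0 _ (by rw [map_mul, map_inv, e, inv_mul_cancel]; exact one_mem _)
    have h2 := mul_mem hy h1 q
    rwa [mul_inv_cancel_left, show i x = q⁻¹ * q' from hx, mul_inv_cancel_left] at h2
  · intro x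
    induction x using QuotientGroup.induction_on with
    | H q =>
      change ψ (q * i τ⁻¹) - ψ q = _
      rw [hψB]
      abel

open HNNExtension in
theorem finPres_hnn [Group.IsFinitelyPresented G] [Group.IsFinitelyPresented A] :
    Group.IsFinitelyPresented (HNNExtension G A B φ) := by
  obtain ⟨T, hTf, hT⟩ := exists_gen A
  let π : Monoid.Coprod G Zm →* HNNExtension G A B φ := Monoid.Coprod.lift of (zpowersHom _ t)
  let u : Monoid.Coprod G Zm := Monoid.Coprod.inr (ofAdd 1)
  let R : Set (Monoid.Coprod G Zm) :=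
    (fun c : A => u * Monoid.Coprod.inl (c : G) * u⁻¹ * (Monoid.Coprod.inl (φ c : G))⁻¹) '' T
  have hu : π u = t := by simp [π, u]
  have hl : ∀ g, π (Monoid.Coprod.inl g) = of g := fun g => by simp [π]
  refine Group.IsFinitelyPresented.of_surjective π (fun x => ?_) ⟨R, hTf.image _, ?_⟩
  · change x ∈ π.range
    induction x using HNNExtension.induction_on with
    | of g => exact ⟨_, hl g⟩
    | t => exact ⟨_, hu⟩
    | mul x y hx hy => exact mul_mem hx hy
    | inv x hx => exact inv_mem hx
  · refine le_antisymm (Subgroup.normalClosure_le_normal ?_) ?_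
    · rintro _ ⟨c, -, rfl⟩
      simp only [SetLike.mem_coe, MonoidHom.mem_ker, map_mul, map_inv, hu, hl, equiv_eq_conj,
        mul_inv_cancel]
    · let q := QuotientGroup.mk' (Subgroup.normalClosure R)
      have hag : (MulAut.conj (q u)).toMonoidHom.comp ((q.comp Monoid.Coprod.inl).comp A.subtype) =
          ((q.comp Monoid.Coprod.inl).comp B.subtype).comp φ.toMonoidHom := by
        refine MonoidHom.eq_of_eqOn_dense hT ?_
        intro c hc
        have : q (u * Monoid.Coprod.inl (c : G) * u⁻¹ * (Monoid.Coprod.inl (φ c : G))⁻¹) = 1 :=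
          (QuotientGroup.eq_one_iff _).mpr (Subgroup.subset_normalClosure ⟨c, hc, rfl⟩)
        rw [map_mul, map_inv, mul_inv_eq_one, map_mul, map_mul, map_inv] at this
        exact this
      let F : HNNExtension G A B φ →* _ := HNNExtension.lift (q.comp Monoid.Coprod.inl) (q u)
        fun a => mul_inv_eq_iff_eq_mul.1 (DFunLike.congr_fun hag a)
      have hF : F.comp π = q := by
        refine Monoid.Coprod.hom_ext ?_ ?_
        · ext a
          simp [π, F]
        · ext
          simp [π, F, u]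
      intro x hx
      have : q x = 1 := by
        rw [← hF, MonoidHom.comp_apply, (MonoidHom.mem_ker).mp hx, map_one]
      exact (QuotientGroup.eq_one_iff _).mp this

end hnn

/-- finitely presented groups with the homological finiteness property -/
def Nice (G : Type) [Group G] : Prop := Cls G ∧ Group.IsFinitelyPresented G

theorem Nice.of_good {G : Type} [Group G] (h : Good G) : Nice G := ⟨cls_of_good h, h.finPres⟩

theorem Nice.equiv {G H : Type} [Group G] [Group H] (e : G ≃* H) (h : Nice G) : Nice H :=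
  have := h.2
  ⟨cls_equiv e h.1, Group.IsFinitelyPresented.equiv e⟩

theorem Nice.ext {G H : Type} [Group G] [Group H] (π : G →* H) (hπ : Surjective π)
    (h1 : Nice π.ker) (h2 : Nice H) : Nice G := by
  have := h1.2
  have := h2.2
  refine ⟨fun Q K _ _ i p hi hp hN => h2.1 Q K i (π.comp p) hi (hπ.comp hp) ?_, finPres_ext π hπ⟩
  rw [← MonoidHom.comap_ker]
  exact h1.1.sub _ i p hi hp hN

theorem Nice.amalgam {G : Type} [Group G] (A B : Subgroup G) (h : IsAmalgam A B) (hA : Nice A)
    (hB : Nice B) (hC : Nice (A ⊓ B : Subgroup G)) : Nice G :=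
  have := hA.2
  have := hB.2
  have := hC.2
  ⟨cls_amalgam h hA.1 hB.1 hC.1, finPres_amalgam A B h⟩

theorem Nice.hnn {G : Type} [Group G] {A B : Subgroup G} (φ : A ≃* B) (hG : Nice G)
    (hA : Nice A) : Nice (HNNExtension G A B φ) :=
  have := hG.2
  have := hA.2
  ⟨cls_hnn hG.1 hA.1, finPres_hnn⟩

theorem Nice.homFP3 {Q : Type} [Group Q] (h : Nice Q) : HomFP3 Q := by
  have h1 := h.1 Q Q (MonoidHom.id Q) (MonoidHom.id Q) injective_id surjective_id
  rw [MonoidHom.ker_id, Subgroup.map_bot, MonoidHom.range_eq_top.2 surjective_id] at h1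
  have h2 := HomFP.fp_aug (h1 (HomFP.fps_bot Q))
  intro ι κ _ _ d₂ d₁ e1 e2
  have h3 := FPinf.ker_of_range d₁ _ e1 (FPinf.of_projective _) h2
  have h4 : Module.Finite _ _ := FPinf.ker_of_range d₂ _ e2 (FPinf.of_projective _) h3 0
  exact Module.Finite.iff_fg.1 h4

lemma nice_range {G H : Type} [Group G] [Group H] (f : G →* H) (hf : Function.Injective f)
    (h : Nice G) : Nice f.range :=
  Nice.equiv (MonoidHom.ofInjective hf) h

lemma nice_semi {S H : Type} [Group S] [Group H] (φ : H →* MulAut S) (hS : Nice S) (hH : Nice H) :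
    Nice (S ⋊[φ] H) := by
  refine Nice.ext rightHom rightHom_surjective ?_ hH
  rw [← range_inl_eq_ker_rightHom]
  exact nice_range _ inl_injective hS

lemma nice_prod {G H : Type} [Group G] [Group H] (hG : Nice G) (hH : Nice H) : Nice (G × H) :=
  Nice.equiv mulEquivProd (nice_semi 1 hG hH)

lemma nice_ind {G H S : Type} [Group G] [Group H] [Group S] {j : H →* G} (φ : H →* MulAut S)
    (hj : Function.Injective j) (hG : Nice G) (hH : Nice H) (hS : Nice S) : Nice (Ind j φ) := by
  let b : S ⋊[φ] H →* Ind j φ := SemidirectProduct.lift inS (inG.comp j) fun h => by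
    ext s
    exact (conj_inS h s).symm
  have hb : ∀ x, b x = inS x.left * inG (j x.right) := fun _ => rfl
  have hbi : Function.Injective b := by
    rw [injective_iff_map_eq_one]
    intro x hx
    have h1 : x.right = 1 := hj (by simpa [hb] using congrArg ret hx)
    rw [hb, h1, map_one, map_one, mul_one, map_eq_one_iff _ (inS_injective hj)] at hx
    exact SemidirectProduct.ext hx h1
  have hS' : ∀ s, inS s ∈ b.range := fun s => ⟨inl s, by simp [hb]⟩
  have hH' : ∀ h, inG (j h) ∈ b.range := fun h => ⟨inr h, by simp [hb]⟩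
  refine Nice.amalgam inG.range b.range ⟨?_, fun K _ f g hfg => ?_⟩
    (nice_range _ inG_injective hG) (nice_range _ hbi (nice_semi φ hS hH)) ?_
  · rw [eq_top_iff]
    intro x _
    induction x using W.induction with
    | h1 g => exact Subgroup.mem_sup_left ⟨g, rfl⟩
    | h2 s => exact Subgroup.mem_sup_right (hS' s)
    | h3 a b ha hb => exact Subgroup.mul_mem _ (ha trivial) (hb trivial)
  · refine ⟨W.lift (f.comp inG.rangeRestrict) (g.comp (inS.codRestrict _ hS')) fun h s => ?_,
      ?_, ?_⟩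
    · have h1 : (f.comp inG.rangeRestrict) (j h) = g ⟨_, hH' h⟩ := hfg _ _ _
      rw [h1, MonoidHom.comp_apply, ← map_inv, ← map_mul, ← map_mul]
      exact congrArg g (Subtype.ext (conj_inS h s))
    · rintro ⟨_, x, rfl⟩
      rfl
    · rintro ⟨_, x, rfl⟩
      have h1 : (⟨b x, x, rfl⟩ : b.range) = ⟨_, hS' x.left⟩ * ⟨_, hH' x.right⟩ := rfl
      rw [h1, map_mul, ← hfg _ ⟨_, rfl⟩]
      change W.lift _ _ _ (inS x.left * inG (j x.right)) = _
      rw [map_mul]
      rfl
  · have : (inG.range ⊓ b.range : Subgroup (Ind j φ)) = (inG.comp j).range := by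
      refine le_antisymm ?_ ?_
      · rintro _ ⟨⟨g, rfl⟩, x, hx⟩
        have h1 : j x.right = g := by simpa [hb] using congrArg ret hx
        exact ⟨x.right, by rw [← h1]; rfl⟩
      · rintro _ ⟨h, rfl⟩
        exact ⟨⟨_, rfl⟩, hH' h⟩
    rw [this]
    exact nice_range _ (inG_injective.comp hj) hH

theorem Lev.big_of_nice {F : ℕ → ℕ} {Γ L Λ1 Λ : Type} [Group Γ] [Group L] [DecidableEq Λ1]
    [DecidableEq Λ] [Finite Λ1] [Finite Λ] (d : Lev F Γ L Λ1 Λ) (hΓ : Nice Γ) (hL : Nice L) :
    Big F :=
  have z : Nice Zm := Nice.of_good Good.int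
  have h : Nice (QQ d.Phi) :=
    nice_ind _ d.Phi_injective (nice_ind _ (LeftInverse.injective d.pr_ψ) hL hΓ z)
      (nice_ind _ d.ι_inj hΓ (nice_prod z z) z) z
  d.big h.2 (nice_prod h z).homFP3

end Pool.Agent.Lib.SE86
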