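import Pool.Agent.Lib.SE86.Transfer

namespace Pool.Agent.Lib.SE86

open Function Multiplicative SemidirectProduct Pool.Agent.Lib.MP_28a49a_al
  Pool.Agent.Lib.MP_28a49a_al.W

lemma lift_comp' {Λ Λ' Λ'' : Type} (θ : Λ → FreeGroup Λ') (η : Λ' → FreeGroup Λ'')
    (ζ : Λ → FreeGroup Λ'') (h : ∀ x, FreeGroup.lift η (θ x) = ζ x) (w : FreeGroup Λ) :
    FreeGroup.lift η (FreeGroup.lift θ w) = FreeGroup.lift ζ w :=
  DFunLike.congr_fun (FreeGroup.ext_hom ((FreeGroup.lift η).comp (FreeGroup.lift θ))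
    (FreeGroup.lift ζ) (by simpa using h)) w

namespace Lev

/-- the undistorted lattice -/
def base : Lev (fun k => k) Z2 Z2 Unit Unit where
  ι := MonoidHom.id _
  φ := MonoidHom.id _
  ψ := MonoidHom.id _
  pr := MonoidHom.id _
  ι_inj := injective_id
  pr_φ _ := rfl
  pr_ψ _ := rfl
  eq_ι _ := rfl
  key g _ := ⟨g, rfl⟩
  e1 _ := a0
  e _ := a0
  θ1 := FreeGroup.of
  θ2 := FreeGroup.of
  h1 _ := by simp
  h2 _ := by simp
  w k := FreeGroup.of () ^ k
  ll := LL.pow ()
  cheap _ _ h := h.eb_refl _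
  grow k := ⟨a0 ^ k, by simp, by simp [a0]⟩

variable {F : ℕ → ℕ} {Γ L Λ1 Λ : Type} [Group Γ] [Group L] [DecidableEq Λ1] [DecidableEq Λ]
  (d : Lev F Γ L Λ1 Λ)

/-- one more level -/
abbrev G1 : Type := Ind d.ι ph

/-- one more level of the ambient group -/
abbrev L1 : Type := Ind (d.φ.comp d.ι) ph

/-- first embedding -/
def φ1 : d.G1 →* d.L1 :=
  W.lift (inG.comp d.φ) inS fun h s => conj_inS (j := d.φ.comp d.ι) h s

/-- second embedding -/
def ψ1 : d.G1 →* d.L1 := W.lift (inG.comp d.ψ) inS fun h s => by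
  rw [MonoidHom.comp_apply, ← d.eq_ι]
  exact conj_inS (j := d.φ.comp d.ι) h s

/-- common left inverse -/
def pr1 : d.L1 →* d.G1 := W.lift (inG.comp d.pr) inS fun h s => by
  rw [MonoidHom.comp_apply, MonoidHom.comp_apply, d.pr_φ]
  exact conj_inS h s

lemma φ1_inG (g : Γ) : d.φ1 (inG g) = inG (d.φ g) := rfl
lemma φ1_inS (a : Z2) : d.φ1 (inS a) = inS a := rfl
lemma ψ1_inG (g : Γ) : d.ψ1 (inG g) = inG (d.ψ g) := rfl
lemma ψ1_inS (a : Z2) : d.ψ1 (inS a) = inS a := rfl

lemma key1 (g : d.G1) (h2 : ret g = 1) (h : d.φ1 g = d.ψ1 g) :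
    g ∈ (inS : Z2 →* d.G1).range := by
  classical
  have r1 : ∀ g, ret (d.φ1 g) = d.φ (ret g) :=
    hom_ext (f := ret.comp d.φ1) (g := d.φ.comp ret) (fun _ => rfl) fun _ => by simp [φ1_inS]
  have r2 : ∀ g, ret (d.ψ1 g) = d.ψ (ret g) :=
    hom_ext (f := ret.comp d.ψ1) (g := d.ψ.comp ret) (fun _ => rfl) fun _ => by simp [ψ1_inS]
  obtain ⟨ev, e1, e2, e3⟩ := exists_ev (j := d.φ.comp d.ι) (φ := ph) (K := d.G1)
    (fun w => if w ∈ d.ψ.range then W.cj (d.pr w) else 1) (fun w t a => by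
      have : w * (d.φ.comp d.ι) t ∈ d.ψ.range ↔ w ∈ d.ψ.range :=
        Subgroup.mul_mem_cancel_right _ ⟨d.ι t, (d.eq_ι t).symm⟩
      simp only [this]
      split_ifs
      · rw [map_mul, MonoidHom.comp_apply, d.pr_φ, cj_mul_j]
      · rfl)
  have k1 : ev (d.ψ1 g) = g := by
    refine ker_induction (P := fun g : d.G1 => ev (d.ψ1 g) = g) (by simp [e1]) (fun x a => ?_)
      (fun a b ha _ ia ib => ?_) g h2
    · have : d.ψ1 (W.cj x a) = W.cj (d.ψ x) a := by simp [cj_apply, ψ1_inG, ψ1_inS]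
      rw [this, e3, if_pos ⟨x, rfl⟩, d.pr_ψ]
    · rw [map_mul, e2 _ _ (by rw [r2, ha, map_one]), ia, ib]
  have k2 : ev (d.φ1 g) ∈ (inS : Z2 →* d.G1).range := by
    refine ker_induction (P := fun g : d.G1 => ev (d.φ1 g) ∈ (inS : Z2 →* d.G1).range)
      (by simp [e1]) (fun x a => ?_) (fun a b ha _ ia ib => ?_) g h2
    · have : d.φ1 (W.cj x a) = W.cj (d.φ x) a := by simp [cj_apply, φ1_inG, φ1_inS]
      rw [this, e3]
      split_ifs with hx
      · obtain ⟨y, hx⟩ := hx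
        obtain ⟨t, rfl⟩ := d.key' x y hx.symm
        exact ⟨ph t a, by rw [d.pr_φ, cj_apply, conj_inS]⟩
      · exact Subgroup.one_mem _
    · rw [map_mul, e2 _ _ (by rw [r1, ha, map_one])]
      exact Subgroup.mul_mem _ ia ib
  rwa [h, k1] at k2

/-- letters of the new ambient group -/
def e' : Option Λ ⊕ Λ1 → d.L1 × Γ :=
  Sum.elim (fun o => (o.elim (inS a0) fun y => inG (d.e y), 1)) fun x => (1, d.e1 x)

/-- old letters among the new ones -/
def old (Λ Λ1 : Type) : Λ → FreeGroup (Option Λ ⊕ Λ1) := fun y => .of (.inl (some y))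

lemma lift_old (v : FreeGroup Λ) : FreeGroup.lift d.e' (FreeGroup.lift (old Λ Λ1) v) =
    (inG (FreeGroup.lift d.e v), 1) :=
  lift_lift (e := d.e) (e' := d.e') (θ := old Λ Λ1) ((MonoidHom.inl d.L1 Γ).comp inG)
    (fun y => by simp [old, e']) v

/-- one more exponential -/
def step [Finite Λ1] [Finite Λ] :
    Lev (fun k => 2 ^ F k) d.G1 (d.L1 × Γ) (Option Λ1) (Option Λ ⊕ Λ1) where
  ι := inS
  φ := d.φ1.prod ret
  ψ := d.ψ1.prod 1
  pr := d.pr1.comp (MonoidHom.fst _ _)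
  ι_inj := inS_injective d.ι_inj
  pr_φ := hom_ext (f := d.pr1.comp d.φ1) (g := MonoidHom.id _)
    (fun g => congrArg inG (d.pr_φ g)) fun _ => rfl
  pr_ψ := hom_ext (f := d.pr1.comp d.ψ1) (g := MonoidHom.id _)
    (fun g => congrArg inG (d.pr_ψ g)) fun _ => rfl
  eq_ι _ := rfl
  key g h := d.key1 g (congrArg Prod.snd h) (congrArg Prod.fst h)
  e1 o := o.elim (inS a0) fun x => inG (d.e1 x)
  e := d.e'
  θ1 o := o.elim (.of (.inl none)) fun x => FreeGroup.lift (old Λ Λ1) (d.θ1 x) * .of (.inr x)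
  θ2 o := o.elim (.of (.inl none)) fun x => FreeGroup.lift (old Λ Λ1) (d.θ2 x)
  h1 := by
    rintro (_ | x)
    · simp [e', φ1_inS]
    · simp only [Option.elim_some, map_mul, lift_old, d.h1]
      simp [e', φ1_inG]
  h2 := by
    rintro (_ | x)
    · simp [e', ψ1_inS]
    · simp only [Option.elim_some, lift_old, d.h2]
      simp [ψ1_inG]
  w k := FreeGroup.lift (fun x => .of (some x)) (d.w k) * .of none *
    (FreeGroup.lift (fun x => .of (some x)) (d.w k))⁻¹
  ll := (LL_lift _ d.ll).cj (LL.const _)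
  cheap R C h := by
    have s1 := h.eb_split (ι := Option Λ1)
      (fun o => o.elim (.of (.inl none))
        fun x => FreeGroup.lift (old Λ Λ1) (d.θ1 x) * .of (.inr x))
      (fun o => o.elim (.of (.inl none)) fun x => FreeGroup.lift (old Λ Λ1) (d.θ1 x))
      (fun o => o.elim 1 fun x => .of (.inr x))
      (by rintro (_ | x) <;> simp)
      (by
        rintro (_ | x) (_ | y)
        · simp
        · simp
        · simp [e', Commute, SemiconjBy]
        · simp only [Option.elim_some, lift_old]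
          simp [e', Commute, SemiconjBy])
      ((LL_lift (fun x => .of (some x)) d.ll).cj (LL.const (.of none))) (fun k => by simp)
    refine h.eb_trans s1 ?_
    have s2 := d.cheap.map d.e' (old Λ Λ1) ((MonoidHom.inl _ _).comp inG)
      (fun y => by simp [old, e']) R C h
    simp only [map_mul, map_inv] at s2 ⊢
    have s3 := h.eb_cj (LL_lift (old Λ Λ1) (LL_lift d.θ2 d.ll))
      (LL.const (.of (.inl none))) s2 (h.eb_refl fun _ => .of (.inl none))
    have e1 : ∀ (θ : Λ1 → FreeGroup Λ) (v : FreeGroup Λ1),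
        FreeGroup.lift (fun o : Option Λ1 => o.elim (.of (.inl none))
          fun x => FreeGroup.lift (old Λ Λ1) (θ x))
            (FreeGroup.lift (fun x => .of (some x)) v) =
          FreeGroup.lift (old Λ Λ1) (FreeGroup.lift θ v) := fun θ v => by
      rw [lift_comp' _ _ (fun x => FreeGroup.lift (old Λ Λ1) (θ x)) (by simp),
        lift_comp' θ _ _ fun _ => rfl]
    simpa only [e1, FreeGroup.lift_apply_of, Option.elim_none] using s3
  grow k := by
    obtain ⟨a, h1, h2⟩ := d.grow k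
    refine ⟨ph a a0, ?_, ?_⟩
    · have := lift_lift (e := d.e1) (θ := fun x => FreeGroup.of (some x))
        (e' := fun o : Option Λ1 => o.elim (inS a0 : d.G1) fun x => inG (d.e1 x)) inG (by simp)
        (d.w k)
      simp only [map_mul, map_inv, this, h1, FreeGroup.lift_apply_of, Option.elim_none]
      exact conj_inS a a0
    · have := ps_growth a.1 (F k) h2 one_pos
      rwa [pow_one] at this

end Lev

theorem exists_lev (m : ℕ) : ∃ (Γ L Λ1 Λ : Type) (_ : Group Γ) (_ : Group L) (_ : DecidableEq Λ1)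
    (_ : DecidableEq Λ) (_ : Finite Λ1) (_ : Finite Λ), Good Γ ∧ Good L ∧
      Nonempty (Lev (fun k => (fun x => 2 ^ x)^[m] k) Γ L Λ1 Λ) := by
  have z2 : Good Z2 := good_prod Good.int Good.int
  induction m with
  | zero => exact ⟨_, _, _, _, _, _, _, _, inferInstance, inferInstance, z2, z2, ⟨Lev.base⟩⟩
  | succ m ih =>
    obtain ⟨Γ, L, Λ1, Λ, _, _, _, _, _, _, hΓ, hL, ⟨d⟩⟩ := ih
    simp only [iterate_succ_apply']
    have h1 : Good d.G1 := good_ind _ d.ι_inj hΓ z2 z2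
    have h2 : Good d.L1 := good_ind (j := d.φ.comp d.ι) _
      ((LeftInverse.injective d.pr_φ).comp d.ι_inj) hL z2 z2
    exact ⟨d.G1, d.L1 × Γ, Option Λ1, Option Λ ⊕ Λ1, inferInstance, inferInstance, inferInstance,
      inferInstance, inferInstance, inferInstance, h1, good_prod h2 hΓ, ⟨d.step⟩⟩

theorem big_iter (m : ℕ) : Big fun k => (fun x => 2 ^ x)^[m] k := by
  obtain ⟨Γ, L, Λ1, Λ, _, _, _, _, _, _, hΓ, hL, ⟨d⟩⟩ := exists_lev m
  exact d.big (d.good hΓ hL).finPres (good_prod (d.good hΓ hL) Good.int).homFP3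

end Pool.Agent.Lib.SE86
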