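import Pool.Agent.Lib.SE86.Nice

namespace Pool.Agent.Lib.SE86

open Function Multiplicative SemidirectProduct Pool.Agent.Lib.MP_28a49a_al
  Pool.Agent.Lib.MP_28a49a_al.W

open HNNExtension in
/-- a map of HNN extensions that creates no pinch reflects the base group -/
theorem hnn_pull {G G' : Type} [Group G] [Group G'] {A B : Subgroup G} {φ : A ≃* B}
    {A' B' : Subgroup G'} {φ' : A' ≃* B'} (u : G →* G')
    (F : HNNExtension G A B φ →* HNNExtension G' A' B' φ') (h1 : ∀ g, F (of g) = of (u g))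
    (h2 : F t = t) (hA : ∀ g, u g ∈ A' → g ∈ A) (hB : ∀ g, u g ∈ B' → g ∈ B)
    (x : HNNExtension G A B φ) (hx : F x ∈ (of : G' →* HNNExtension G' A' B' φ').range) :
    x ∈ (of : G →* HNNExtension G A B φ).range := by
  obtain ⟨d⟩ := NormalWord.TransversalPair.nonempty G A B
  obtain ⟨w, rfl⟩ := (NormalWord.equiv φ d).symm.surjective x
  change w.prod φ ∈ _
  change F (w.prod φ) ∈ _ at hx
  let w' : NormalWord.ReducedWord G' A' B' :=
    { head := u w.head
      toList := w.toList.map fun p => (p.1, u p.2)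
      chain := by
        rw [List.isChain_map]
        refine w.chain.imp fun a b hab h => hab ?_
        obtain ⟨a1, a2⟩ := a
        rcases Int.units_eq_one_or a1 with rfl | rfl
        · exact hA _ h
        · exact hB _ h }
  have e : F (w.prod φ) = w'.prod φ' := by
    simp only [NormalWord.ReducedWord.prod, map_mul, h1, map_list_prod, List.map_map, w']
    congr 2
    refine List.map_congr_left fun p _ => ?_
    simp only [comp_apply, map_mul, map_zpow, h1, h2]
  have h3 := ReducedWord.toList_eq_nil_of_mem_of_range φ' w' (e ▸ hx)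
  have h4 : w.toList = [] := List.map_eq_nil_iff.1 h3
  exact ⟨w.head, by simp [NormalWord.ReducedWord.prod, h4]⟩

section HN
open HNNExtension
variable {C G K : Type} [Group C] [Group G] [Group K] {f g : C →* G} (hf : Injective f)
  (hg : Injective g)

/-- the isomorphism between the two images -/
noncomputable def hiso : f.range ≃* g.range :=
  (MonoidHom.ofInjective hf).symm.trans (MonoidHom.ofInjective hg)

lemma hiso_apply (c : C) : (hiso hf hg ⟨f c, c, rfl⟩ : G) = g c := by
  have : (MonoidHom.ofInjective hf).symm ⟨f c, c, rfl⟩ = c :=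
    (MulEquiv.symm_apply_eq _).2 rfl
  rw [hiso, MulEquiv.trans_apply, this]
  rfl

/-- HNN extension along two embeddings -/
abbrev HN : Type := HNNExtension G f.range g.range (hiso hf hg)

lemma hn_conj (c : C) : (t * of (f c) * t⁻¹ : HN hf hg) = of (g c) := by
  rw [← hiso_apply hf hg, equiv_eq_conj]

/-- universal property -/
noncomputable def hnLift (u : G →* K) (x : K) (h : ∀ c, x * u (f c) * x⁻¹ = u (g c)) :
    HN hf hg →* K :=
  HNNExtension.lift u x (by
    rintro ⟨_, c, rfl⟩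
    rw [hiso_apply, ← h, inv_mul_cancel_right])

@[simp] lemma hnLift_of (u : G →* K) (x : K) (h) (y : G) : hnLift hf hg u x h (of y) = u y :=
  lift_of _ _ _ _

@[simp] lemma hnLift_t (u : G →* K) (x : K) (h) : hnLift hf hg u x h t = x := lift_t _ _ _

lemma nice_hn (hG : Nice G) (hC : Nice C) : Nice (HN hf hg) :=
  Nice.hnn _ hG (nice_range f hf hC)

end HN

section cost
variable {Λ Q ι : Type} [DecidableEq Λ] [Group Q] [Finite ι] [DecidableEq ι]
  {g : FreeGroup Λ →* Q} {R : FreeGroup Λ → ℕ → Prop} {C : ℕ}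

lemma split_norm (h : CC g R C) (γ α β : ι → FreeGroup Λ)
    (h1 : ∀ x, g (γ x) = g (α x) * g (β x)) (h2 : ∀ x y, Commute (g (β x)) (g (α y))) :
    ∃ K, ∀ v, R (FreeGroup.lift γ v * (FreeGroup.lift α v * FreeGroup.lift β v)⁻¹)
      ((K + 1) ^ FreeGroup.norm v) := by
  obtain ⟨K, hK⟩ := h.split_list (lv γ) (lv α) (lv β) (fun x => by
    obtain ⟨x, _ | _⟩ := x
    · simp [lv, h1, (h2 x x).inv_inv.eq]
    · simp [lv, h1]) (comm_lv h2)
  refine ⟨K, fun v => ?_⟩
  have := hK v.toWord
  rwa [← lift_eq_lv, ← lift_eq_lv, ← lift_eq_lv] at this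

lemma comm_norm (h : CC g R C) (α : ι → FreeGroup Λ) (x : FreeGroup Λ)
    (h2 : ∀ y, Commute (g x) (g (α y))) :
    ∃ K, ∀ v, R (FreeGroup.lift α v * x * (FreeGroup.lift α v)⁻¹ * x⁻¹)
      ((K + 1) ^ FreeGroup.norm v) := by
  obtain ⟨K, hK⟩ := h.comm_list (lv fun _ : Unit => x) (lv α) (comm_lv fun _ => h2)
  refine ⟨K, fun v => ?_⟩
  have := h.inv (hK ((), true) v.toWord)
  rw [← lift_eq_lv] at this
  simpa [lv, mul_assoc, FreeGroup.norm] using this

end cost

namespace BG
open HNNExtension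

/-- a lattice acting on a lattice -/
abbrev K0 : Type := Z2 ⋊[ph] Z2

/-- the acting lattice is conjugated onto the normal one -/
abbrev Gm : Type := HN (inr_injective (N := Z2) (G := Z2) (φ := ph)) (inl_injective (φ := ph))

/-- the distorted lattice -/
noncomputable def iA : Z2 →* Gm := of.comp inl

lemma iA_inj : Injective iA := (of_injective _).comp inl_injective

lemma t_conj (v : Z2) : (t⁻¹ * iA v * t : Gm) = of (inr v) := by
  rw [iA, MonoidHom.comp_apply, ← hn_conj]
  group

/-- twisted diagonal -/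
noncomputable def dg : Gm →* Gm × Gm := (MulAut.conj t⁻¹).toMonoidHom.prod (MonoidHom.id _)

lemma dg_apply (x : Gm) : dg x = (t⁻¹ * x * t, x) := by simp [dg]

lemma dg_inj : Injective dg := fun _ _ h => congrArg Prod.snd h

lemma inl_inj : Injective (MonoidHom.inl Gm Gm) := fun _ _ h => congrArg Prod.fst h

/-- the ambient group -/
abbrev Lm : Type := HN dg_inj inl_inj

/-- the embedding of the base -/
noncomputable def u0 : K0 →* Gm × Gm := of.prod (iA.comp rightHom)

lemma u0_apply (x : K0) : u0 x = (of x, iA x.right) := rfl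

/-- first embedding -/
noncomputable def φ : Gm →* Lm := hnLift _ _ (of.comp u0) t fun v => by
  have := hn_conj dg_inj inl_inj (iA v)
  rw [dg_apply, t_conj] at this
  simpa [u0_apply, iA] using this

lemma φ_of (x : K0) : φ (of x) = of (of x, iA x.right) := hnLift_of _ _ _ _ _ _

lemma φ_t : φ t = t := hnLift_t _ _ _ _ _

/-- second embedding -/
noncomputable def ψ : Gm →* Lm := of.comp (MonoidHom.inl Gm Gm)

/-- common left inverse -/
noncomputable def pr : Lm →* Gm := hnLift _ _ (MonoidHom.fst _ _) t fun c => by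
  rw [dg_apply]
  simp [mul_assoc]

lemma key (g : Gm) (h : φ g = ψ g) : g ∈ iA.range := by
  have k : ∀ x : K0, iA x.right = 1 → x = inl x.left := fun x hx =>
    SemidirectProduct.ext rfl ((map_eq_one_iff _ iA_inj).1 hx)
  obtain ⟨x, rfl⟩ := hnn_pull u0 φ φ_of φ_t (by
      rintro x ⟨c, hc⟩
      rw [dg_apply, u0_apply, Prod.mk.injEq] at hc
      obtain ⟨h1, rfl⟩ := hc
      rw [t_conj] at h1
      exact ⟨_, of_injective _ h1⟩)
    (by
      rintro x ⟨c, hc⟩
      exact ⟨_, (k x (congrArg Prod.snd hc).symm).symm⟩) g ⟨_, h.symm⟩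
  rw [φ_of] at h
  exact ⟨x.left, congrArg of (k x (congrArg Prod.snd (of_injective _ h))).symm⟩

/-- the test words -/
def uw : ℕ → FreeGroup Bool
  | 0 => .of false
  | j + 1 => (FreeGroup.of true)⁻¹ * uw j * .of true * .of false *
      ((FreeGroup.of true)⁻¹ * uw j * .of true)⁻¹

lemma norm_uw (j : ℕ) : FreeGroup.norm (uw j) + 5 ≤ 6 * 2 ^ j := by
  induction j with
  | zero => simp [uw]
  | succ j ih =>
    have h1 := FreeGroup.norm_mul_le (FreeGroup.of true)⁻¹ (uw j)
    have h2 := FreeGroup.norm_mul_le ((FreeGroup.of true)⁻¹ * uw j) (.of true)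
    have h3 := FreeGroup.norm_mul_le ((FreeGroup.of true)⁻¹ * uw j * .of true) (.of false)
    have h4 := FreeGroup.norm_mul_le ((FreeGroup.of true)⁻¹ * uw j * .of true * .of false)
      ((FreeGroup.of true)⁻¹ * uw j * .of true)⁻¹
    rw [FreeGroup.norm_inv_eq, FreeGroup.norm_of] at h1
    rw [FreeGroup.norm_of] at h2 h3
    rw [FreeGroup.norm_inv_eq] at h4
    rw [uw, pow_succ]
    omega

/-- letters of the group -/
noncomputable def e1 : Bool → Gm := fun b => cond b t (iA a0)

/-- letters of the ambient group -/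
noncomputable def e : Option (Bool × Bool) → Lm :=
  fun o => o.elim t fun p => cond p.2 (of (e1 p.1, 1)) (of (1, e1 p.1))

/-- first substitution -/
def θ1 : Bool → FreeGroup (Option (Bool × Bool)) :=
  fun b => cond b (.of none) (.of (some (false, true)))

/-- second substitution -/
def θ2 : Bool → FreeGroup (Option (Bool × Bool)) := fun b => .of (some (b, true))

lemma grow (j : ℕ) : ∃ a, FreeGroup.lift e1 (uw j) = iA a ∧
    (((fun x => 2 ^ x)^[j] 1 : ℕ) : ℤ) ≤ toAdd a.1 := by
  induction j with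
  | zero => exact ⟨a0, by simp [uw, e1], by simp [a0]⟩
  | succ j ih =>
    obtain ⟨a, h1, h2⟩ := ih
    refine ⟨ph a a0, ?_, ?_⟩
    · have e1t : FreeGroup.lift e1 ((FreeGroup.of true)⁻¹ * uw j * .of true) = of (inr a) := by
        rw [← t_conj, map_mul, map_mul, map_inv, h1, FreeGroup.lift_apply_of]
        rfl
      rw [uw, map_mul, map_mul, map_inv, e1t, FreeGroup.lift_apply_of, iA, MonoidHom.comp_apply,
        inl_aut, map_mul, map_mul, map_inv, map_inv]
      rfl
    · have := ps_growth a.1 _ h2 one_pos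
      rwa [pow_one, ← iterate_succ_apply' (fun x => 2 ^ x)] at this

lemma lift_cj {Λ Λ' : Type} (θ : Λ → FreeGroup Λ') (x : FreeGroup Λ') (v : FreeGroup Λ) :
    FreeGroup.lift (fun y => x⁻¹ * θ y * x) v = x⁻¹ * FreeGroup.lift θ v * x := by
  have := DFunLike.congr_fun (FreeGroup.ext_hom (FreeGroup.lift fun y => x⁻¹ * θ y * x)
    ((MulAut.conj x⁻¹).toMonoidHom.comp (FreeGroup.lift θ)) (by simp)) v
  simpa using this

lemma cheap {R : FreeGroup (Option (Bool × Bool)) → ℕ → Prop} {C : ℕ}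
    (h : CC (FreeGroup.lift e) R C) : ∃ K, 1 ≤ K ∧ ∀ j,
      R (FreeGroup.lift θ1 (uw j) * (FreeGroup.lift θ2 (uw j))⁻¹) (K ^ 2 ^ j) := by
  let T : FreeGroup (Option (Bool × Bool)) := .of none
  let P : FreeGroup (Option (Bool × Bool)) := θ2 true
  let a : FreeGroup (Option (Bool × Bool)) := θ2 false
  let β : Bool → FreeGroup (Option (Bool × Bool)) := fun b => .of (some (b, false))
  have v2 : ∀ x, FreeGroup.lift e (θ2 x) = of (e1 x, 1) := fun x => by simp [θ2, e]
  have vβ : ∀ x, FreeGroup.lift e (β x) = of (1, e1 x) := fun x => by simp [β, e]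
  have cm : ∀ x y : Gm, Commute (of (1, x) : Lm) (of (y, 1)) := fun x y =>
    Commute.map (by simp [Commute, SemiconjBy]) of
  obtain ⟨K1, hK1⟩ := split_norm h (fun y => T⁻¹ * θ2 y * T) (fun y => P⁻¹ * θ2 y * P) β
    (fun x => by
      have h0 : (t⁻¹ * of (e1 x, 1) * t : Lm) = of (t⁻¹ * e1 x * t, e1 x) := by
        rw [← dg_apply, show (e1 x, (1 : Gm)) = MonoidHom.inl Gm Gm (e1 x) from rfl,
          ← hn_conj dg_inj inl_inj]
        group
      simp only [map_mul, map_inv, v2, vβ, P]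
      rw [show FreeGroup.lift e T = t by simp [T, e], h0, ← map_inv, ← map_mul, ← map_mul,
        ← map_mul]
      simp [e1])
    (fun x y => by
      simp only [map_mul, map_inv, v2, vβ, P]
      exact ((cm _ _).inv_right.mul_right (cm _ _)).mul_right (cm _ _))
  simp only [lift_cj] at hK1
  obtain ⟨K2, hK2⟩ := comm_norm h β a fun y => by rw [v2, vβ]; exact (cm _ _).symm
  obtain ⟨A1, hA1⟩ := norm_lift_le θ2
  obtain ⟨A2, hA2⟩ := norm_lift_le β
  obtain ⟨M, hM1, hM⟩ : ∃ M, 1 ≤ M ∧ ∀ b n m, b ≤ C + K1 + K2 →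
      n ≤ (12 * (A1 + A2 + 1)) * m → (b + 1) ^ n ≤ M ^ m :=
    ⟨(C + K1 + K2 + 1) ^ (12 * (A1 + A2 + 1)), Nat.one_le_pow _ _ (Nat.succ_pos _),
      fun b n m hb hn => by
        rw [← pow_mul]
        exact (Nat.pow_le_pow_left (by omega) _).trans
          (Nat.pow_le_pow_right (Nat.succ_pos _) hn)⟩
  refine ⟨(2 * C + 5) * M, by nlinarith, fun j => ?_⟩
  induction j with
  | zero => exact h.mono (by simpa [uw, θ1, θ2] using h.one) (Nat.zero_le _)
  | succ j ih =>
    have n0 := norm_uw j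
    have n1 := hA1 (uw j)
    have n2 := hA2 (uw j)
    have s1 := hK1 (uw j)
    have s2 := hK2 (uw j)
    have e1 : FreeGroup.lift θ1 (uw (j + 1)) = T⁻¹ * FreeGroup.lift θ1 (uw j) * T * a *
        (T⁻¹ * FreeGroup.lift θ1 (uw j) * T)⁻¹ := by simp [uw, θ1, θ2, T, a]
    have e2 : FreeGroup.lift θ2 (uw (j + 1)) = P⁻¹ * FreeGroup.lift θ2 (uw j) * P * a *
        (P⁻¹ * FreeGroup.lift θ2 (uw j) * P)⁻¹ := by simp [uw, P, a]
    rw [e1, e2]
    generalize FreeGroup.lift θ1 (uw j) = W at *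
    generalize FreeGroup.lift θ2 (uw j) = V at *
    generalize FreeGroup.lift β (uw j) = V' at *
    have nP : FreeGroup.norm P = 1 := FreeGroup.norm_of _
    have na : FreeGroup.norm a = 1 := FreeGroup.norm_of _
    have nT : FreeGroup.norm T⁻¹ = 1 := by rw [FreeGroup.norm_inv_eq, FreeGroup.norm_of]
    have nZ : FreeGroup.norm (P⁻¹ * V * P) ≤ FreeGroup.norm V + 2 := by
      have h1 := FreeGroup.norm_mul_le P⁻¹ V
      have h2 := FreeGroup.norm_mul_le (P⁻¹ * V) P
      rw [FreeGroup.norm_inv_eq] at h1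
      omega
    generalize P⁻¹ * V * P = Z at *
    have nY : FreeGroup.norm (Z * V' * a * (Z * V')⁻¹) ≤
        2 * (FreeGroup.norm V + FreeGroup.norm V') + 5 := by
      have h1 := FreeGroup.norm_mul_le Z V'
      have h2 := FreeGroup.norm_mul_le (Z * V') a
      have h3 := FreeGroup.norm_mul_le (Z * V' * a) (Z * V')⁻¹
      rw [FreeGroup.norm_inv_eq] at h3
      omega
    have r1 := h.mul (h.conj T⁻¹ ih) s1
    have r2 := h.mul (h.mul r1 (h.conj (Z * V' * a * (Z * V')⁻¹) (h.inv r1))) (h.conj Z s2)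
    rw [nT, pow_one] at r2
    generalize FreeGroup.norm (uw j) = n at *
    have hm : 1 ≤ 2 ^ j := Nat.one_le_two_pow
    rw [pow_succ 2, pow_mul]
    generalize 2 ^ j = m at *
    have b1 := hM K1 n m (by omega) (by nlinarith [Nat.zero_le ((A1 + A2) * m)])
    have b2 := hM K2 n m (by omega) (by nlinarith [Nat.zero_le ((A1 + A2) * m)])
    have c1 : A1 * n + 5 * A1 ≤ 6 * (A1 * m) := by nlinarith [Nat.mul_le_mul_left A1 n0]
    have c2 : A2 * n + 5 * A2 ≤ 6 * (A2 * m) := by nlinarith [Nat.mul_le_mul_left A2 n0]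
    have b3 := hM C (FreeGroup.norm (Z * V' * a * (Z * V')⁻¹)) m (by omega) (by nlinarith)
    have b4 := hM C (FreeGroup.norm Z) m (by omega) (by nlinarith [Nat.zero_le (A2 * m)])
    refine h.mono (by convert r2 using 1; group) ?_
    have d1 : (2 * C + 5) * M ^ m ≤ ((2 * C + 5) * M) ^ m := by
      rw [mul_pow]
      exact Nat.mul_le_mul_right _ (Nat.le_self_pow (by omega) _)
    have d2 : 1 ≤ M ^ m := Nat.one_le_pow _ _ hM1
    generalize ((2 * C + 5) * M) ^ m = X at *
    generalize M ^ m = Y at *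
    have d3 : Y ≤ X := le_trans (Nat.le_mul_of_pos_left _ (by omega)) d1
    calc _ ≤ (C + 1) * X + X + Y * ((C + 1) * X + X) + Y * X := by gcongr <;> omega
      _ ≤ (2 * C + 5) * Y * X := by nlinarith [Nat.mul_le_mul_right ((C + 2) * X) d2]
      _ ≤ X ^ 2 := by rw [sq]; exact Nat.mul_le_mul_right _ d1

/-- the tower function along the logarithm -/
noncomputable def lev : Lev (fun k => (fun x => 2 ^ x)^[Nat.log 2 (k + 1)] 1) Gm Lm Bool
    (Option (Bool × Bool)) where
  ι := iA
  φ := φ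
  ψ := ψ
  pr := pr
  ι_inj := iA_inj
  pr_φ := DFunLike.congr_fun (HNNExtension.hom_ext (f := pr.comp φ) (g := MonoidHom.id _)
    (MonoidHom.ext fun x => by simp [φ_of, pr]) (by simp [φ_t, pr]))
  pr_ψ g := by simp [ψ, pr]
  eq_ι a := by
    rw [iA, MonoidHom.comp_apply, φ_of, right_inl, map_one]
    rfl
  key := key
  e1 := e1
  e := e
  θ1 := θ1
  θ2 := θ2
  h1 := by
    rintro (_ | _)
    · rw [e1, cond_false, iA, MonoidHom.comp_apply, φ_of, right_inl, map_one]
      simp [θ1, e, e1, iA]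
    · simp [θ1, e, e1, φ_t]
  h2 x := by simp [θ2, e, ψ]
  w k := uw (Nat.log 2 (k + 1))
  ll := ⟨6, fun k => by
    have h1 := norm_uw (Nat.log 2 (k + 1))
    have h2 : 2 ^ Nat.log 2 (k + 1) ≤ k + 1 := Nat.pow_log_le_self 2 (Nat.succ_ne_zero k)
    simp only
    omega⟩
  cheap R C h := by
    obtain ⟨K, h1, hK⟩ := cheap h
    exact ⟨K, fun k => h.mono (hK _)
      (Nat.pow_le_pow_right h1 (Nat.pow_log_le_self 2 (Nat.succ_ne_zero k)))⟩
  grow k := grow _

end BG

theorem big_tower : Big fun k => (fun x => 2 ^ x)^[Nat.log 2 (k + 1)] 1 :=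
  have z : Nice Z2 := Nice.of_good (good_prod Good.int Good.int)
  have g : Nice BG.Gm := nice_hn _ _ (nice_semi _ z z) z
  BG.lev.big_of_nice g (nice_hn _ _ (nice_prod g g) g)

end Pool.Agent.Lib.SE86
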