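import Pool.Agent.Lib.MP_28a49a_al.Main
import Pool.Agent.Lib.SE86.Data

namespace Pool.Agent.Lib.SE86

open Function Multiplicative SemidirectProduct Pool.Agent.Lib.MP_28a49a_al
  Pool.Agent.Lib.MP_28a49a_al.W

/-- a lattice that is the equalizer of two embeddings, with short words for far away points -/
structure Lev (F : ℕ → ℕ) (Γ L Λ1 Λ : Type) [Group Γ] [Group L] [DecidableEq Λ1]
    [DecidableEq Λ] where
  ι : Z2 →* Γ
  φ : Γ →* L
  ψ : Γ →* L
  pr : L →* Γ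
  ι_inj : Injective ι
  pr_φ : ∀ g, pr (φ g) = g
  pr_ψ : ∀ g, pr (ψ g) = g
  eq_ι : ∀ a, φ (ι a) = ψ (ι a)
  key : ∀ g, φ g = ψ g → g ∈ ι.range
  e1 : Λ1 → Γ
  e : Λ → L
  θ1 : Λ1 → FreeGroup Λ
  θ2 : Λ1 → FreeGroup Λ
  h1 : ∀ x, FreeGroup.lift e (θ1 x) = φ (e1 x)
  h2 : ∀ x, FreeGroup.lift e (θ2 x) = ψ (e1 x)
  w : ℕ → FreeGroup Λ1
  ll : LL w
  cheap : Cheap e fun k => FreeGroup.lift θ1 (w k) * (FreeGroup.lift θ2 (w k))⁻¹
  grow : ∀ k, ∃ a, FreeGroup.lift e1 (w k) = ι a ∧ (F k : ℤ) ≤ toAdd a.1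

namespace Lev
variable {F : ℕ → ℕ} {Γ L Λ1 Λ : Type} [Group Γ] [Group L] [DecidableEq Λ1] [DecidableEq Λ]
  (d : Lev F Γ L Λ1 Λ)

theorem key' (g l : Γ) (h : d.φ g = d.ψ l) : g ∈ d.ι.range := by
  have h1 : g = l := by rw [← d.pr_φ g, h, d.pr_ψ]
  subst h1
  exact d.key g h

/-- the letter `b` is added -/
abbrev BB : Type := Ind d.ψ (1 : Γ →* MulAut Zm)

/-- the centralizer of the last letter -/
abbrev H0 : Type := Ind d.ι (1 : Z2 →* MulAut Zm)

/-- its embedding -/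
def Phi : d.H0 →* d.BB := W.lift (inG.comp d.φ) inS fun h s => by
  rw [MonoidHom.comp_apply, d.eq_ι]
  exact conj_inS (j := d.ψ) (d.ι h) s

lemma Phi_inG (g : Γ) : d.Phi (inG g) = inG (d.φ g) := rfl
lemma Phi_inS (a : Zm) : d.Phi (inS a) = inS a := rfl

lemma ret_Phi (g : d.H0) : ret (d.Phi g) = d.φ (ret g) :=
  hom_ext (f := ret.comp d.Phi) (g := d.φ.comp ret) (fun _ => rfl) (fun _ => by simp [Phi_inS]) g

lemma Phi_injective : Injective d.Phi := by
  classical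
  rw [injective_iff_map_eq_one]
  intro γ h
  have h1 : ret γ = 1 := by rw [← d.pr_φ (ret γ), ← ret_Phi, h, map_one, map_one]
  have wd : ∀ g l g' l' : Γ, d.φ g * d.ψ l = d.φ g' * d.ψ l' →
      (W.cj g : Zm →* d.H0) = W.cj g' := fun g l g' l' e => by
    obtain ⟨a, ha⟩ := d.key' (g⁻¹ * g') (l * l'⁻¹) (by
      rw [map_mul, map_mul, map_inv, map_inv, inv_mul_eq_iff_eq_mul, ← mul_assoc, e,
        mul_inv_cancel_right])
    ext
    rw [← mul_inv_cancel_left g g', ← ha, cj_mul_j]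
    rfl
  let e : L → Zm →* d.H0 := fun w => if h : ∃ g l, w = d.φ g * d.ψ l then W.cj h.choose else 1
  have he : ∀ g l, e (d.φ g * d.ψ l) = W.cj g := fun g l => by
    have h : ∃ g' l', d.φ g * d.ψ l = d.φ g' * d.ψ l' := ⟨g, l, rfl⟩
    obtain ⟨l', h'⟩ := h.choose_spec
    simp only [e, dif_pos h]
    exact wd _ _ _ _ h'.symm
  obtain ⟨ev, e1, e2, e3⟩ := exists_ev (j := d.ψ) (φ := (1 : Γ →* MulAut Zm)) e (fun w l a => by
    by_cases h : ∃ g l, w = d.φ g * d.ψ l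
    · obtain ⟨g, l', rfl⟩ := h
      rw [mul_assoc, ← map_mul, he, he]
      rfl
    · have h' : ¬ ∃ g l', w * d.ψ l = d.φ g * d.ψ l' := fun ⟨g, l', e⟩ =>
        h ⟨g, l' * l⁻¹, by rw [eq_mul_inv_of_mul_eq e, map_mul, map_inv, mul_assoc]⟩
      simp only [e, dif_neg h, dif_neg h']
      rfl)
  have k : ev (d.Phi γ) = γ := by
    refine ker_induction (P := fun γ : d.H0 => ev (d.Phi γ) = γ) (by simp [e1]) (fun x a => ?_)
      (fun a b ha _ ia ib => ?_) γ h1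
    · have : d.Phi (W.cj x a) = W.cj (d.φ x * d.ψ 1) a := by simp [cj_apply, Phi_inG, Phi_inS]
      rw [this, e3, he]
    · rw [map_mul, e2 _ _ (by rw [ret_Phi, ha, map_one]), ia, ib]
  rw [← k, h, e1]

lemma good (hΓ : Good Γ) (hL : Good L) : Good (QQ d.Phi) :=
  have z : Good Zm := Good.int
  good_ind _ d.Phi_injective (good_ind _ (LeftInverse.injective d.pr_ψ) hL hΓ z)
    (good_ind _ d.ι_inj hΓ (good_prod z z) z) z

end Lev

/-- a hyperbolic group with a finitely presented subgroup in which words of exponential length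
need area at least `F` -/
def Big (F : ℕ → ℕ) : Prop :=
  ∃ (G : Type) (_ : Group G),
    (∃ (β : Type) (_ : Finite β) (s : β → G),
      Function.Surjective (FreeGroup.lift s) ∧
      ∃ (d : G → G → ℕ),
        (∀ x y : G, d x y = sInf {k : ℕ | ∃ l : List (β × Bool),
            l.length = k ∧ FreeGroup.lift s (FreeGroup.mk l) = x⁻¹ * y}) ∧
        ∃ δ : ℕ, ∀ x y z w : G,
          d x z + d y w ≤ max (d x y + d z w) (d x w + d y z) + 2 * δ) ∧
    ∃ (α : Type) (_ : Finite α) (φ : FreeGroup α →* G) (R : Finset (FreeGroup α)),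
      φ.ker = Subgroup.normalClosure (R : Set (FreeGroup α)) ∧
      ∃ K c : ℕ, 2 ≤ K ∧ ∀ k : ℕ, ∃ w : FreeGroup α, φ w = 1 ∧
        (∃ l : List (α × Bool), l.length ≤ c * K ^ (k + 1) ∧ FreeGroup.mk l = w) ∧
        ∀ L : List (FreeGroup α × FreeGroup α),
          (∀ p ∈ L, p.2 ∈ R ∨ p.2⁻¹ ∈ R) →
          (L.map (fun p => p.1 * p.2 * p.1⁻¹)).prod = w →
          F k ≤ c * L.length + K ^ (k + 1)

theorem Lev.big {F : ℕ → ℕ} {Γ L Λ1 Λ : Type} [Group Γ] [Group L] [DecidableEq Λ1] [DecidableEq Λ]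
    [Finite Λ1] [Finite Λ] (d : Lev F Γ L Λ1 Λ) (h1 : Group.IsFinitelyPresented (QQ d.Phi))
    (h2 : HomFP3 (QQ d.Phi × Zm)) : Big F := by
  obtain ⟨D0, hD0⟩ := qdata2 d.Phi d.ι_inj d.Phi_injective (MonoidHom.fst Zm Zm) d.e1
    (fun x => inG (d.e x)) d.θ1 d.θ2
    (fun x => by
      have := lift_lift (e := d.e) (e' := fun x => (inG (d.e x) : d.BB)) (θ := FreeGroup.of) inG
        (by simp) (d.θ1 x)
      rw [FreeGroup.lift_of_apply] at this
      rw [this, d.h1]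
      rfl)
    (fun x => by
      have := lift_lift (e := d.e) (e' := fun x => (inG (d.e x) : d.BB)) (θ := FreeGroup.of) inG
        (by simp) (d.θ2 x)
      rw [FreeGroup.lift_of_apply] at this
      rw [this, d.h2]
      exact (comm_inS d.ψ _ _).symm) d.w d.ll
    (by simpa only [FreeGroup.lift_of_apply] using
      d.cheap.map (fun x => (inG (d.e x) : d.BB)) FreeGroup.of inG (by simp)) F d.grow
  obtain ⟨_, _, D, hD⟩ := qd_prod D0 hD0
  obtain ⟨S, _, _, s, hs, hker⟩ := exists_rel4 (QQ d.Phi)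
  have hT : T3 (fun r : Rel4 s => tupWord r.1) :=
    T3_of_homFP3 s hs _ (by rw [hker, Set.image_eq_range]) h2
  obtain ⟨E, V, E1, _, _, _, X, L, vh, k, hk, hnd⟩ :=
    exists_complex_nd S (Rel4 s) (rel4_symm s) (rel4_rot s) (rel4_flat s)
  obtain ⟨R, hR⟩ := finpres s hs hker hT L
  refine ⟨L.Xp.G, inferInstance, SqSys.hyperbolic (SqSys.noGrid_addFree _ hk), L.Core,
    inferInstance, FreeGroup.lift L.eta, R, hR,
    lower_bound2 s hs hker L vh hnd D F hD R fun r hr => ?_⟩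
  rw [← MonoidHom.mem_ker, hR]
  exact Subgroup.subset_normalClosure hr

end Pool.Agent.Lib.SE86
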